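import Pool.Agent.Q271.RC.Contact
import Pool.Agent.Q72.NA.Alg

/-!
Heights on generically finite covers.
-/

set_option autoImplicit false

namespace Pool.Agent.Q271.RC

open MvPolynomial FF Pool.Agent.W603.LV Pool.Agent.W603.PV Pool.Agent.W602.GT
open Pool.Agent.Q72.NA

theorem isAlg_of_incl {K' : Type} [Field K'] [Algebra ℂ K'] {E F : IntermediateField ℂ K'}
    (h : E ≤ F) {z : K'} (hz : IsAlgebraic E z) : IsAlgebraic F z :=
  isAlg_of_hom (IntermediateField.inclusion h).toRingHom (fun _ => rfl) hz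

theorem hom_scale {N : ℕ} {M : Type} [Field M] [Algebra ℂ M] (c : M) (x : Fin (N + 1) → M)
    {G : MvPolynomial (Fin (N + 1)) ℂ} {D : ℕ} (hG : G.IsHomogeneous D) :
    aeval (fun i => c * x i) G = c ^ D * aeval x G := by
  rw [aeval_def, aeval_def, eval₂_eq', eval₂_eq', Finset.mul_sum]
  refine Finset.sum_congr rfl fun α hα => ?_
  have h1 : ∑ i, α i = D := by
    have := hG (mem_support_iff.1 hα)
    rw [← this, Finsupp.weight_apply, Finsupp.sum_fintype _ _ (by simp)]
    simp
  simp only [mul_pow, Finset.prod_mul_distrib]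
  rw [Finset.prod_pow_eq_pow_sum, h1]
  ring

theorem aeval_algebraMap' {N : ℕ} {K K' : Type} [Field K] [Algebra ℂ K] [Field K'] [Algebra ℂ K']
    [Algebra K K'] [IsScalarTower ℂ K K'] (a : Fin (N + 1) → K) (G : MvPolynomial (Fin (N + 1)) ℂ) :
    aeval (fun i => algebraMap K K' (a i)) G = algebraMap K K' (aeval a G) := by
  have e1 : (aeval (fun i => algebraMap K K' (a i)) : MvPolynomial (Fin (N + 1)) ℂ →ₐ[ℂ] K') =
      (IsScalarTower.toAlgHom ℂ K K').comp (aeval a) := by
    apply MvPolynomial.algHom_ext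
    intro i
    simp
  rw [e1]
  rfl

section

variable {N N' : ℕ} {K K' : Type} [Field K] [Algebra ℂ K] [Field K'] [Algebra ℂ K']
  [Algebra K K'] [IsScalarTower ℂ K K'] (a : Fin (N + 1) → K) (b : Fin (N' + 1) → K')
  (g : Fin (N + 1) → MvPolynomial (Fin (N' + 1)) ℂ) (e' : ℕ) (hg : ∀ i, (g i).IsHomogeneous e')
  (c : K') (hgc : ∀ i, aeval b (g i) = c * algebraMap K K' (a i))

include hgc in
/-- values of forms at the generic point -/
theorem gen_comp {G : MvPolynomial (Fin (N + 1)) ℂ} {D : ℕ} (hG : G.IsHomogeneous D) :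
    aeval b (bind₁ g G) = c ^ D * algebraMap K K' (aeval a G) := by
  rw [aeval_bind₁]
  have h2 : (fun i => aeval b (g i)) = fun i => c * algebraMap K K' (a i) := funext hgc
  rw [h2, hom_scale c _ hG, aeval_algebraMap']

include hg in
theorem hom_bind {G : MvPolynomial (Fin (N + 1)) ℂ} {D : ℕ} (hG : G.IsHomogeneous D) :
    (bind₁ g G).IsHomogeneous (e' * D) :=
  hG.aeval g hg

include hg hgc in
/-- the point given by forms -/
theorem pt_comp {M : Type} [Field M] [Algebra ℂ M] (v : Fin (N' + 1) → M)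
    (hv : PtF (F := ℂ) b v) : PtF (F := ℂ) a (fun i => aeval v (g i)) := by
  intro G D hG hGa
  have h2 := hv (bind₁ g G) (e' * D) (hom_bind g e' hg hG) (by
    rw [gen_comp a b g c hgc hG, hGa, map_zero, mul_zero])
  rwa [aeval_bind₁] at h2

include hg hgc in
/-- the height of `v` is bounded by the height of `g v` -/
theorem height_up (hc : c ≠ 0) (ha : ∃ j, a j ≠ 0) (hb : ∃ j, b j ≠ 0)
    (hrat : ∀ f : K', RatF (F := ℂ) b f)
    (halg : ∀ z : K', IsAlgebraic (IntermediateField.adjoin ℂ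
      {f : K' | ∃ i j, a j ≠ 0 ∧ f = algebraMap K K' (a i / a j)}) z) :
    ∃ (H : MvPolynomial (Fin (N' + 1)) ℂ) (E C : ℕ), H.IsHomogeneous E ∧ aeval b H ≠ 0 ∧
      ∀ (M : Type) [Field M] [Algebra ℂ M] [IsFF ℂ M] (v : Fin (N' + 1) → M),
        PtF (F := ℂ) b v → aeval v H ≠ 0 → (∃ j, v j ≠ 0) ∧ (∃ i, aeval v (g i) ≠ 0) ∧
          pht ℂ v ≤ C * pht ℂ (fun i => aeval v (g i)) := by
  classical
  obtain ⟨l, hl⟩ := ha
  obtain ⟨l', hl'⟩ := hb
  have hgl : aeval b (g l) ≠ 0 := by
    rw [hgc]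
    exact mul_ne_zero hc ((map_ne_zero _).2 hl)
  let x : Fin (N + 1) → K' := fun i => aeval b (g i) / aeval b (g l)
  have hx : ∀ i, x i = algebraMap K K' (a i / a l) := by
    intro i
    show aeval b (g i) / aeval b (g l) = _
    rw [hgc, hgc, mul_div_mul_left _ _ hc, map_div₀]
  have hle : IntermediateField.adjoin ℂ
      {f : K' | ∃ i j, a j ≠ 0 ∧ f = algebraMap K K' (a i / a j)} ≤
      IntermediateField.adjoin ℂ (Set.range x) := by
    rw [IntermediateField.adjoin_le_iff]
    rintro _ ⟨i, j, hj, rfl⟩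
    have h1 : algebraMap K K' (a i / a j) = x i / x j := by
      rw [hx, hx, ← map_div₀]
      congr 1
      field_simp
    rw [h1]
    exact div_mem (IntermediateField.subset_adjoin _ _ ⟨i, rfl⟩)
      (IntermediateField.subset_adjoin _ _ ⟨j, rfl⟩)
  have halg' : ∀ z : K', IsAlgebraic (IntermediateField.adjoin ℂ (Set.range x)) z := fun z =>
    isAlg_of_incl hle (halg z)
  choose D cc hc0 hc1 using fun i : Fin (N' + 1) =>
    Pool.Agent.W603.PV.exists_rel' x (b i / b l') (halg' _)
  let R' : Subalgebra ℂ K' := Algebra.adjoin ℂ (((Finset.univ.image x) ∪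
    (Finset.univ.image fun i => b i / b l') : Finset K') : Set K')
  have hR' : R'.FG := ⟨_, rfl⟩
  have hxR : ∀ i, x i ∈ R' := fun i => Algebra.subset_adjoin (by
    simp only [Finset.coe_union, Set.mem_union]
    exact Or.inl (by simp))
  have hbR : ∀ i, b i / b l' ∈ R' := fun i => Algebra.subset_adjoin (by
    simp only [Finset.coe_union, Set.mem_union]
    exact Or.inr (by simp))
  let x' : Fin (N + 1) → R' := fun i => ⟨x i, hxR i⟩
  let W : Finset K' := Finset.univ.image fun i => aeval x (cc i (D i))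
  obtain ⟨B, E, hB, hBb, hev⟩ := evalW hrat R' hR' W (by
    intro w hw
    simp only [W, Finset.mem_image, Finset.mem_univ, true_and] at hw
    obtain ⟨i, rfl⟩ := hw
    exact hc0 i)
  refine ⟨B * (X l' * g l), E + (1 + e'),
    (∑ j, ∑ d ∈ Finset.range (D j + 1), (cc j d).totalDegree) * (N + 1),
    hB.mul ((isHomogeneous_X _ _).mul (hg l)), ?_, ?_⟩
  · rw [map_mul, map_mul, aeval_X]
    exact mul_ne_zero hBb (mul_ne_zero hl' hgl)
  intro M _ _ _ v hv hHv
  rw [map_mul, map_mul, aeval_X] at hHv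
  have hvl' : v l' ≠ 0 := left_ne_zero_of_mul (right_ne_zero_of_mul hHv)
  have hul : aeval v (g l) ≠ 0 := right_ne_zero_of_mul (right_ne_zero_of_mul hHv)
  refine ⟨⟨l', hvl'⟩, ⟨l, hul⟩, ?_⟩
  obtain ⟨φ, hφ, hφW⟩ := hev M v hv (left_ne_zero_of_mul hHv)
  have hφx : ∀ i, φ (x' i) = aeval v (g i) / aeval v (g l) := by
    intro i
    have h1 := hφ (x' i) (g i) (g l) e' (hg i) (hg l) (by
      show aeval b (g i) / aeval b (g l) * aeval b (g l) = aeval b (g i)
      rw [div_mul_cancel₀ _ hgl])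
    rw [eq_div_iff hul, h1]
  have hφb : ∀ i, φ ⟨b i / b l', hbR i⟩ = v i / v l' := by
    intro i
    have h1 := hφ ⟨b i / b l', hbR i⟩ (X i) (X l') 1 (isHomogeneous_X _ _) (isHomogeneous_X _ _) (by
      rw [aeval_X, aeval_X]
      show b i / b l' * b l' = b i
      field_simp)
    rw [aeval_X, aeval_X] at h1
    rw [eq_div_iff hvl', h1]
  have hval : ∀ p : MvPolynomial (Fin (N + 1)) ℂ, ((aeval x' p : R') : K') = aeval x p := by
    intro p
    have e1 : (R'.val.comp (aeval x') : MvPolynomial (Fin (N + 1)) ℂ →ₐ[ℂ] K') = aeval x := by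
      apply MvPolynomial.algHom_ext
      intro i
      simp [x']
    exact DFunLike.congr_fun e1 p
  have hφp : ∀ p : MvPolynomial (Fin (N + 1)) ℂ, φ (aeval x' p) = aeval (fun i => φ (x' i)) p := by
    intro p
    have e1 : (φ.comp (aeval x') : MvPolynomial (Fin (N + 1)) ℂ →ₐ[ℂ] M) =
        aeval (fun i => φ (x' i)) := by
      apply MvPolynomial.algHom_ext
      intro i
      simp
    exact DFunLike.congr_fun e1 p
  have hht := ht_alg (fun i => φ (x' i)) v l' hvl' D cc
    (fun i => by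
      rw [← hφp]
      refine hφW _ ?_
      rw [hval]
      simp only [W, Finset.mem_image, Finset.mem_univ, true_and]
      exact ⟨i, rfl⟩)
    (fun i => by
      have h1 : (∑ d ∈ Finset.range (D i + 1), aeval x' (cc i d) *
          (⟨b i / b l', hbR i⟩ : R') ^ d : R') = 0 := by
        apply Subtype.ext
        rw [AddSubmonoidClass.coe_finsetSum]
        show ∑ d ∈ Finset.range (D i + 1), ((aeval x' (cc i d) : R') : K') * (b i / b l') ^ d = 0
        simp_rw [hval]
        exact hc1 i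
      have h2 := congrArg φ h1
      rw [map_sum, map_zero] at h2
      rw [← h2]
      refine Finset.sum_congr rfl fun d _ => ?_
      rw [map_mul, map_pow, hφp, hφb])
  refine hht.trans ?_
  have h3 : (∑ i, hgt ℂ (φ (x' i))) ≤ (N + 1) * pht ℂ (fun i => aeval v (g i)) := by
    calc (∑ i, hgt ℂ (φ (x' i))) ≤ ∑ _i : Fin (N + 1), pht ℂ (fun i => aeval v (g i)) := by
          refine Finset.sum_le_sum fun i _ => ?_
          rw [hφx]
          exact hgt_ratio_le (fun i => aeval v (g i)) (l := l) hul i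
      _ = _ := by
          rw [Finset.sum_const, Finset.card_univ, Fintype.card_fin, nsmul_eq_mul]
          push_cast
          ring
  refine (mul_le_mul_of_nonneg_left h3 (Int.natCast_nonneg _)).trans (le_of_eq ?_)
  push_cast
  ring

end

end Pool.Agent.Q271.RC
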