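import Pool.Agent.Q271.RC.Gm2
import Pool.Agent.Q271.RC.Cover

/-!
# Covers which are ramified to high order over the boundary: definitions
-/

set_option autoImplicit false

namespace Pool.Agent.Q271.RC

open MvPolynomial FF Pool.Agent.W603.LV Pool.Agent.W603.PV Pool.Agent.W602.GT Pool.Agent.Q72.NA

/-- `a` is the generic point, in homogeneous coordinates, of a projective variety with the function
field `K`: the ratios of the coordinates generate `K`. -/
def IsGeneric {N : ℕ} {K : Type} [Field K] [Algebra ℂ K] (a : Fin (N + 1) → K) : Prop :=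
  (∃ j, a j ≠ 0) ∧ IntermediateField.adjoin ℂ {g : K | ∃ i j, a j ≠ 0 ∧ g = a i / a j} = ⊤

/-- `u` is a point, over the field `L`, of the projective variety with the generic point `a`. -/
def IsPoint {N : ℕ} {K : Type} [Field K] [Algebra ℂ K] (a : Fin (N + 1) → K) {L : Type} [Field L]
    [Algebra ℂ L] (u : Fin (N + 1) → L) : Prop :=
  ∀ (G : MvPolynomial (Fin (N + 1)) ℂ) (D : ℕ), G.IsHomogeneous D → aeval a G = 0 → aeval u G = 0

/-- A pair: a projective variety `X` of dimension `d` (generic point `a`, function field `K`) and
forms `f 0, …, f n` of degree `e` which do not vanish on `X`, whose ratios define a generically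
finite rational map from `X` to a closed subvariety of projective `n`-space, such that `X` with
boundary the zeros and poles of the ratios is of log general type. -/
structure IsPair {N n : ℕ} {K : Type} [Field K] [Algebra ℂ K] (d : ℕ) (a : Fin (N + 1) → K)
    (f : Fin (n + 1) → MvPolynomial (Fin (N + 1)) ℂ) (e : ℕ) : Prop where
  gen : IsGeneric a
  hom : ∀ i, (f i).IsHomogeneous e
  ne : ∀ i, aeval a (f i) ≠ 0
  fin : Algebra.IsAlgebraic
    (IntermediateField.adjoin ℂ (Set.range fun i => aeval a (f i) / aeval a (f 0))) K
  lgt : LogGeneralType ℂ K d fun P => ∃ i, P.ord (aeval a (f i)) ≠ P.ord (aeval a (f 0))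

/-- The forms `g 0, …, g N` of degree `e'` define a generically finite dominant rational map from
the projective variety `Y`, with generic point `b` and function field `K'`, to the projective
variety with generic point `a`. -/
structure IsCover {N N' : ℕ} {K K' : Type} [Field K] [Algebra ℂ K] [Field K'] [Algebra ℂ K']
    [Algebra K K'] (a : Fin (N + 1) → K) (b : Fin (N' + 1) → K')
    (g : Fin (N + 1) → MvPolynomial (Fin (N' + 1)) ℂ) (e' : ℕ) : Prop where
  gen : IsGeneric b
  hom : ∀ i, (g i).IsHomogeneous e'
  map : ∃ c : K', c ≠ 0 ∧ ∀ i, aeval b (g i) = c * algebraMap K K' (a i)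
  alg : Algebra.IsAlgebraic K K'

/-- The cover is ramified to order at least `m` over the boundary: for all arcs in `Y` (points `v`
over a field `L` with a discrete valuation `z`) on which no `h i` vanishes, the orders of the
functions `h i (v)` are all equal, or two of them differ by at least `m`. Here the `h i` are the
forms `f i (g)`. -/
def Ramified {N' n : ℕ} {K' : Type} [Field K'] [Algebra ℂ K'] (m : ℕ) (b : Fin (N' + 1) → K')
    (h : Fin (n + 1) → MvPolynomial (Fin (N' + 1)) ℂ) : Prop :=
  ∀ (L : Type) [Field L] [Algebra ℂ L] (v : Fin (N' + 1) → L), IsPoint b v →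
    (∀ i, aeval v (h i) ≠ 0) → ∀ z : Place ℂ L, HighContact m (fun i => aeval v (h i)) z

/-- the point is not constant -/
def Nonconst {N : ℕ} {L : Type} [Field L] [Algebra ℂ L] (u : Fin (N + 1) → L) : Prop :=
  ∃ i j, u j ≠ 0 ∧ Transcendental ℂ (u i / u j)

end Pool.Agent.Q271.RC
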