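import Pool.Agent.Q271.RC.FContact

/-!
# Covers of pairs over function fields
-/

set_option autoImplicit false

namespace Pool.Agent.Q271.RC

open MvPolynomial FF Pool.Agent.W603.LV Pool.Agent.W603.PV Pool.Agent.W602.GT Pool.Agent.Q72.NA

theorem coverF {N n d : ℕ} (F : Type) [Field F] [Algebra ℂ F] [IsFF ℂ F]
    (S₀ : Finset (Place ℂ F))
    (K : Type) [Field K] [Algebra ℂ K] [Algebra F K] [IsScalarTower ℂ F K] (a : Fin (N + 1) → K)
    (f : Fin (n + 1) → MvPolynomial (Fin (N + 1)) F) (e : ℕ) (hX : IsPairF F S₀ d a f e) :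
    ∃ m0 : ℕ, ∀ m, m0 ≤ m → ∀ (N' : ℕ) (K' : Type) [Field K'] [Algebra ℂ K'] [Algebra F K']
      [IsScalarTower ℂ F K'] [Algebra K K'] [IsScalarTower F K K'] (b : Fin (N' + 1) → K')
      (g : Fin (N + 1) → MvPolynomial (Fin (N' + 1)) F) (e' : ℕ), IsCoverF F a b g e' →
      ∃ (G : MvPolynomial (Fin (N' + 1)) F) (D A C : ℕ), G.IsHomogeneous D ∧ aeval b G ≠ 0 ∧
        ∀ (L : Type) [Field L] [Algebra ℂ L] [Algebra F L] [IsScalarTower ℂ F L]
          [Module.Finite F L] (v : Fin (N' + 1) → L), PtF (F := F) b v → aeval v G ≠ 0 →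
          (∀ i, aeval v (bind₁ g (f i)) ≠ 0) ∧
          ∀ T : Finset (Place ℂ L),
            (∀ z : Place ℂ L, z ∉ T → HighContact m (fun i => aeval v (bind₁ g (f i))) z) →
            pht ℂ v ≤ A * (canDeg ℂ L + T.card) + C * Module.finrank F L := by
  obtain ⟨B, E, A, C, m0, hB, hBa, hmain⟩ := pairF_contact F S₀ K a f e hX
  refine ⟨m0, fun m hm N' K' _ _ _ _ _ _ b g e' hY => ?_⟩
  obtain ⟨c, hc, hgc⟩ := hY.map
  obtain ⟨H, E', C1, C2, hH, hHb, hup⟩ := height_upF (F := F) a b g e' hY.hom c hgc hc hX.gen.1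
    hY.gen.1 (fun f => ratF_of_adjoin hY.gen.2 f) hX.gen.2 hY.alg
  refine ⟨H * bind₁ g B, E' + e' * E, C1 * A, C1 * C + C2, hH.mul (hB.aeval g hY.hom), ?_, ?_⟩
  · rw [map_mul, gen_compF a b g c hgc hB]
    exact mul_ne_zero hHb (mul_ne_zero (pow_ne_zero _ hc) ((map_ne_zero _).2 hBa))
  intro L _ _ _ _ _ v hv hGv
  have hL : IsFF ℂ L := isFF_of_finite (k := ℂ) (F := F)
  rw [map_mul] at hGv
  obtain ⟨hv0, hu0, hh⟩ := hup L v hv (left_ne_zero_of_mul hGv)
  have hBu : aeval (fun i => aeval v (g i)) B ≠ 0 := by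
    rw [← aeval_bind₁]
    exact right_ne_zero_of_mul hGv
  obtain ⟨h1, h2⟩ := hmain m hm L (fun i => aeval v (g i))
    (pt_compF a b g e' hY.hom c hgc v hv) hBu hu0
  refine ⟨fun i => by rw [aeval_bind₁]; exact h1 i, fun T hT => ?_⟩
  have h3 := h2 T (fun z hz => by
    have := hT z hz
    simp only [aeval_bind₁] at this
    exact this)
  refine (hh.trans (add_le_add_left (mul_le_mul_of_nonneg_left h3
    (Int.natCast_nonneg _)) _)).trans (le_of_eq ?_)
  push_cast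
  ring

/-- the places over a finite set -/
theorem card_over {F : Type} [Field F] [Algebra ℂ F] [IsFF ℂ F] (S₁ : Finset (Place ℂ F)) :
    ∃ H : ℕ, ∀ (L : Type) [Field L] [Algebra ℂ L] [Algebra F L] [IsScalarTower ℂ F L]
      [Module.Finite F L], ∃ T : Finset (Place ℂ L), (T.card : ℤ) ≤ H * Module.finrank F L ∧
        ∀ z : Place ℂ L, z ∉ T → ∀ q ∈ S₁, ¬ IsOver z q := by
  classical
  obtain ⟨H, hH⟩ : ∃ H : ℕ, (H : ℤ) = ∑ q ∈ S₁, 2 * hgt ℂ (unif q) :=
    ⟨(∑ q ∈ S₁, 2 * hgt ℂ (unif q)).toNat, Int.toNat_of_nonneg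
      (Finset.sum_nonneg fun q _ => mul_nonneg zero_le_two (hgt_nonneg _))⟩
  refine ⟨H, fun L _ _ _ _ _ => ?_⟩
  have hL : IsFF ℂ L := isFF_of_finite (k := ℂ) (F := F)
  refine ⟨S₁.biUnion fun q => (finite_support (k := ℂ) (algebraMap F L (unif q))).toFinset,
    ?_, ?_⟩
  · refine le_trans (b := ∑ q ∈ S₁,
      ((finite_support (k := ℂ) (algebraMap F L (unif q))).toFinset.card : ℤ)) ?_ ?_
    · exact_mod_cast Finset.card_biUnion_le
    · rw [hH, Finset.sum_mul]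
      refine Finset.sum_le_sum fun q _ => ?_
      refine (card_supp (algebraMap F L (unif q)) _ fun z hz => by simpa using hz).trans
        (le_of_eq ?_)
      rw [hgt_algebraMap]
      ring
  · intro z hz q hq hov
    apply hz
    refine Finset.mem_biUnion.2 ⟨q, hq, ?_⟩
    have h1 := hov (unif q) (by rw [ord_unif]; exact one_pos)
    simpa using h1.ne'

end Pool.Agent.Q271.RC
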