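import Pool.Agent.Q271.RC.FGT
import Pool.Agent.Q271.RC.FMain

/-!
# Covers of pairs over function fields: general type
-/

set_option autoImplicit false

namespace Pool.Agent.Q271.RC

open MvPolynomial FF Pool.Agent.W603.LV Pool.Agent.W603.PV Pool.Agent.W602.GT Pool.Agent.Q72.NA

theorem finite_of_ess {K K' : Type} [Field K] [Algebra ℂ K] [Field K'] [Algebra ℂ K']
    [Algebra K K'] [IsScalarTower ℂ K K'] (h : Algebra.EssFiniteType ℂ K')
    (ha : Algebra.IsAlgebraic K K') : FiniteDimensional K K' := by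
  have hess : Algebra.EssFiniteType K K' := Algebra.EssFiniteType.of_comp ℂ K K'
  obtain ⟨s, hs⟩ := IntermediateField.fg_top K K'
  have h1 : FiniteDimensional K (IntermediateField.adjoin K (s : Set K')) :=
    IntermediateField.finiteDimensional_adjoin fun x _ =>
      (Algebra.IsAlgebraic.isAlgebraic x).isIntegral
  rw [hs] at h1
  exact h1.equiv IntermediateField.topEquiv.toLinearEquiv

/-- **The total spaces of ramified covers are of log general type.** -/
theorem coverF_gt {N n d : ℕ} (F : Type) [Field F] [Algebra ℂ F] [IsFF ℂ F]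
    (S₀ : Finset (Place ℂ F))
    (K : Type) [Field K] [Algebra ℂ K] [Algebra F K] [IsScalarTower ℂ F K] (a : Fin (N + 1) → K)
    (f : Fin (n + 1) → MvPolynomial (Fin (N + 1)) F) (e : ℕ) (hX : IsPairF F S₀ d a f e) :
    ∃ m0 : ℕ, ∀ m, m0 ≤ m → ∀ (N' : ℕ) (K' : Type) [Field K'] [Algebra ℂ K'] [Algebra F K']
      [IsScalarTower ℂ F K'] [Algebra K K'] [IsScalarTower F K K'] (b : Fin (N' + 1) → K')
      (g : Fin (N + 1) → MvPolynomial (Fin (N' + 1)) F) (e' : ℕ), IsCoverF F a b g e' →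
      ∀ S₁ : Finset (Place ℂ F), RamifiedF F S₁ m b (fun i => bind₁ g (f i)) →
        LogGeneralType ℂ K' d fun P => (∃ q ∈ S₀, IsOver P q) ∨ ∃ q ∈ S₁, IsOver P q := by
  have hessF : Algebra.EssFiniteType ℂ F := IsFF.ess
  have hess : Algebra.EssFiniteType ℂ K := by
    have h1 : Algebra.EssFiniteType F K := ess_of_adjoin hX.gen.2
    exact Algebra.EssFiniteType.comp ℂ F K
  let x : Fin (n + 1) → K := fun i => aeval a (f i) / aeval a (f 0)
  have hx0 : ∀ i, x i ≠ 0 := fun i => div_ne_zero (hX.ne i) (hX.ne 0)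
  have hBd : (fun P : Place ℂ K => (∃ i, P.ord (aeval a (f i)) ≠ P.ord (aeval a (f 0))) ∨
      ∃ v ∈ S₀, IsOver P v) = fun P => (∃ i, P.ord (x i) ≠ 0) ∨ ∃ v ∈ S₀, IsOver P v := by
    funext P
    simp only [x, P.ord_div (hX.ne _) (hX.ne 0), sub_ne_zero]
  have hlgt := hX.lgt
  rw [hBd] at hlgt
  obtain ⟨m0, hm0⟩ := gt_cover_log K x hx0 (fun P => ∃ v ∈ S₀, IsOver P v) hlgt
  refine ⟨m0 + 1, fun m hm N' K' _ _ _ _ _ _ b g e' hY S₁ hram => ?_⟩
  have tow : IsScalarTower ℂ K K' := IsScalarTower.of_algebraMap_eq fun c => by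
    rw [IsScalarTower.algebraMap_apply ℂ F K', IsScalarTower.algebraMap_apply ℂ F K,
      ← IsScalarTower.algebraMap_apply F K K']
  have h1 : Algebra.EssFiniteType ℂ K' := by
    have h2 : Algebra.EssFiniteType F K' := ess_of_adjoin hY.gen.2
    exact Algebra.EssFiniteType.comp ℂ F K'
  have h3 : FiniteDimensional K K' := finite_of_ess h1 hY.alg
  obtain ⟨c, hc, hgc⟩ := hY.map
  have hval : ∀ i, aeval b (bind₁ g (f i)) = c ^ e * algebraMap K K' (aeval a (f i)) := fun i =>
    gen_compF a b g c hgc (hX.hom i)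
  have hfi : ∀ i, algebraMap K K' (aeval a (f i)) ≠ 0 := fun i => (map_ne_zero _).2 (hX.ne i)
  have hne : ∀ i, aeval b (bind₁ g (f i)) ≠ 0 := fun i => by
    rw [hval]
    exact mul_ne_zero (pow_ne_zero _ hc) (hfi i)
  refine hm0 K' _ ?_ fun P _ hP => ?_
  · rintro P v e hov ⟨q, hq, hvq⟩
    left
    refine ⟨q, hq, fun z hz => ?_⟩
    have h4 := hvq z hz
    rw [IsScalarTower.algebraMap_apply F K K', hov.2]
    have h5 : (0 : ℤ) < e := by exact_mod_cast hov.1
    positivity
  have hord : ∀ i, P.ord (algebraMap K K' (x i)) =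
      P.ord (aeval b (bind₁ g (f i))) - P.ord (aeval b (bind₁ g (f 0))) := by
    intro i
    rw [hval, hval, P.ord_mul (pow_ne_zero _ hc) (hfi i), P.ord_mul (pow_ne_zero _ hc) (hfi 0)]
    simp only [x]
    rw [map_div₀, P.ord_div (hfi i) (hfi 0)]
    ring
  rw [not_or] at hP
  rcases hram K' b (fun G D _ h => h) hne P (fun q hq hov => hP.2 ⟨q, hq, hov⟩) with h | ⟨i, j, h⟩
  · left
    intro i
    rw [hord, h i, sub_self]
  · right
    have hij : i ≠ j := by
      rintro rfl
      rw [sub_self] at h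
      omega
    have h4 : |P.ord (algebraMap K K' (x i))| + |P.ord (algebraMap K K' (x j))| ≤
        ∑ i, |P.ord (algebraMap K K' (x i))| := by
      rw [← Finset.sum_pair (f := fun i => |P.ord (algebraMap K K' (x i))|) hij]
      exact Finset.sum_le_sum_of_subset_of_nonneg (Finset.subset_univ _)
        fun _ _ _ => abs_nonneg _
    have h5 := le_abs_self (P.ord (algebraMap K K' (x i)))
    have h6 := neg_le_abs (P.ord (algebraMap K K' (x j)))
    have h8 := hord i
    have h9 := hord j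
    have h10 : (m : ℤ) ≤ P.ord (aeval b (bind₁ g (f i))) - P.ord (aeval b (bind₁ g (f j))) := h
    have h7 : (m0 : ℤ) + 1 ≤ m := by exact_mod_cast hm
    omega

end Pool.Agent.Q271.RC
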