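import Pool.Agent.Q271.RC.Defs

/-!
# Curves on covers
-/

set_option autoImplicit false

namespace Pool.Agent.Q271.RC

open MvPolynomial FF Pool.Agent.W603.LV Pool.Agent.W603.PV Pool.Agent.W602.GT Pool.Agent.Q72.NA

theorem aeval_map_hom {N : ℕ} {M L : Type} [Field M] [Algebra ℂ M] [Field L] [Algebra ℂ L]
    (σ : M →ₐ[ℂ] L) (u : Fin (N + 1) → M) (p : MvPolynomial (Fin (N + 1)) ℂ) :
    aeval (fun i => σ (u i)) p = σ (aeval u p) := by
  have e1 : (aeval (fun i => σ (u i)) : MvPolynomial (Fin (N + 1)) ℂ →ₐ[ℂ] L) =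
      σ.comp (aeval u) := by
    apply MvPolynomial.algHom_ext
    intro i
    simp
  rw [e1]
  rfl

/-- high contact on covers -/
theorem HighContact.pull {M L : Type} [Field M] [Algebra ℂ M] [Field L] [Algebra ℂ L] {n m : ℕ}
    (σ : M →ₐ[ℂ] L) {v : Fin (n + 1) → M} {z : Place ℂ L} {z0 : Place ℂ M} {e : ℕ} (he : 0 < e)
    (hov : ∀ f : M, z.ord (σ f) = e * z0.ord f) (h : HighContact m v z0) :
    HighContact m (fun i => σ (v i)) z := by
  rcases h with h | ⟨i, j, h⟩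
  · left
    intro i
    rw [hov, hov, h i]
  · right
    refine ⟨i, j, ?_⟩
    rw [hov, hov, ← mul_sub]
    have h1 : (0 : ℤ) ≤ m := Int.natCast_nonneg _
    have h2 : (1 : ℤ) ≤ e := by exact_mod_cast he
    nlinarith

/-- the estimate for the pair -/
theorem pair_bound {N n d : ℕ} {K : Type} [Field K] [Algebra ℂ K] {a : Fin (N + 1) → K}
    {f : Fin (n + 1) → MvPolynomial (Fin (N + 1)) ℂ} {e : ℕ} (hX : IsPair d a f e) :
    ∃ (B : MvPolynomial (Fin (N + 1)) ℂ) (E A m0 : ℕ), B.IsHomogeneous E ∧ aeval a B ≠ 0 ∧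
      ∀ m, m0 ≤ m → ∀ (M : Type) [Field M] [Algebra ℂ M] [IsFF ℂ M] (u : Fin (N + 1) → M),
        PtF (F := ℂ) a u → aeval u B ≠ 0 → (∃ j, u j ≠ 0) → (∀ i, aeval u (f i) ≠ 0) ∧
        ∀ S : Finset (Place ℂ M),
          (∀ z : Place ℂ M, z ∉ S → HighContact m (fun i => aeval u (f i)) z) →
          pht ℂ u ≤ 2 * A * max (2 * canDeg ℂ M + 3 * S.card) 0 := by
  have : Algebra.EssFiniteType ℂ K := ess_of_adjoin hX.gen.2
  let x : Fin (n + 1) → Kˣ := fun i =>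
    Units.mk0 (aeval a (f i) / aeval a (f 0)) (div_ne_zero (hX.ne i) (hX.ne 0))
  have hx : ∀ i, (x i : K) = aeval a (f i) / aeval a (f 0) := fun i => rfl
  have hBd : (fun P : Place ℂ K => ∃ i, P.ord (aeval a (f i)) ≠ P.ord (aeval a (f 0))) =
      fun P => ∃ i, P.ord (x i : K) ≠ 0 := by
    funext P
    simp only [hx, P.ord_div (hX.ne _) (hX.ne 0), sub_ne_zero]
  have hlgt := hX.lgt
  rw [hBd] at hlgt
  have hfin := hX.fin
  obtain ⟨B, E, A, hB, hBa, hmain⟩ := coreF (F := ℂ) K a hX.gen.1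
    (fun g => ratF_of_adjoin hX.gen.2 g) x f
    (fun _ => f 0) (fun _ => e) hX.hom (fun _ => hX.hom 0) (fun _ => hX.ne 0)
    (fun i => by rw [hx, div_mul_cancel₀ _ (hX.ne 0)]) (fun z => hfin.isAlgebraic z) hlgt
  refine ⟨B, E, A, 12 * A * (n + 1) * e + 1, hB, hBa, ?_⟩
  intro m hm M _ _ _ u hu hBu hu0
  obtain ⟨h1, -⟩ := hmain M u hu hBu
  refine ⟨fun i => (h1 i).1, fun S hS => ?_⟩
  refine contact_bound a f e hX.hom B A ?_ m (by omega) M u hu hBu hu0 S hS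
  intro M' _ _ _ u' hu' hBu' _
  obtain ⟨h2, h3⟩ := hmain M' u' hu' hBu'
  exact ⟨fun i => (h2 i).1, h3⟩

/-- **Curves on covers.** -/
theorem cover_bound {N n d : ℕ} {K : Type} [Field K] [Algebra ℂ K] {a : Fin (N + 1) → K}
    {f : Fin (n + 1) → MvPolynomial (Fin (N + 1)) ℂ} {e : ℕ} (hX : IsPair d a f e) :
    ∃ m0 : ℕ, ∀ m, m0 ≤ m → ∀ (N' : ℕ) (K' : Type) [Field K'] [Algebra ℂ K'] [Algebra K K']
      [IsScalarTower ℂ K K'] (b : Fin (N' + 1) → K')
      (g : Fin (N + 1) → MvPolynomial (Fin (N' + 1)) ℂ) (e' : ℕ), IsCover a b g e' →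
      ∃ (G : MvPolynomial (Fin (N' + 1)) ℂ) (D A : ℕ), G.IsHomogeneous D ∧ aeval b G ≠ 0 ∧
        ∀ (M : Type) [Field M] [Algebra ℂ M] [IsFF ℂ M] (v : Fin (N' + 1) → M),
          PtF (F := ℂ) b v → aeval v G ≠ 0 → (∀ i, aeval v (bind₁ g (f i)) ≠ 0) ∧
          ∀ S : Finset (Place ℂ M), (∀ z : Place ℂ M, z ∉ S →
            HighContact m (fun i => aeval v (bind₁ g (f i))) z) →
          pht ℂ v ≤ A * max (2 * canDeg ℂ M + 3 * S.card) 0 := by
  obtain ⟨B, E, A, m0, hB, hBa, hmain⟩ := pair_bound hX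
  refine ⟨m0, fun m hm N' K' _ _ _ _ b g e' hY => ?_⟩
  obtain ⟨c, hc, hgc⟩ := hY.map
  have halgK := hY.alg
  -- K' is algebraic over the field generated by the ratios of the coordinates of a
  have halg : ∀ z : K', IsAlgebraic (IntermediateField.adjoin ℂ
      {f : K' | ∃ i j, a j ≠ 0 ∧ f = algebraMap K K' (a i / a j)}) z := by
    intro z
    have h1 : ∀ y : K, algebraMap K K' y ∈ IntermediateField.adjoin ℂ
        {f : K' | ∃ i j, a j ≠ 0 ∧ f = algebraMap K K' (a i / a j)} := by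
      intro y
      have h2 : y ∈ IntermediateField.adjoin ℂ {g : K | ∃ i j, a j ≠ 0 ∧ g = a i / a j} := by
        rw [hX.gen.2]
        exact IntermediateField.mem_top
      have h3 : IntermediateField.adjoin ℂ {g : K | ∃ i j, a j ≠ 0 ∧ g = a i / a j} ≤
          (IntermediateField.adjoin ℂ
            {f : K' | ∃ i j, a j ≠ 0 ∧ f = algebraMap K K' (a i / a j)}).comap
            (IsScalarTower.toAlgHom ℂ K K') := by
        rw [IntermediateField.adjoin_le_iff]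
        rintro _ ⟨i, j, hj, rfl⟩
        exact IntermediateField.subset_adjoin _ _ ⟨i, j, hj, rfl⟩
      exact h3 h2
    exact isAlg_of_hom ((algebraMap K K').codRestrict _ h1) (fun _ => rfl) (halgK.isAlgebraic z)
  obtain ⟨H, E', C, hH, hHb, hup⟩ := height_up a b g e' hY.hom c hgc hc hX.gen.1 hY.gen.1
    (fun f => ratF_of_adjoin hY.gen.2 f) halg
  refine ⟨H * bind₁ g B, E' + e' * E, C * (2 * A), hH.mul (hom_bind g e' hY.hom hB), ?_, ?_⟩
  · rw [map_mul, gen_comp a b g c hgc hB]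
    exact mul_ne_zero hHb (mul_ne_zero (pow_ne_zero _ hc) ((map_ne_zero _).2 hBa))
  intro M _ _ _ v hv hGv
  rw [map_mul] at hGv
  obtain ⟨hv0, hu0, hh⟩ := hup M v hv (left_ne_zero_of_mul hGv)
  have hBu : aeval (fun i => aeval v (g i)) B ≠ 0 := by
    rw [← aeval_bind₁]
    exact right_ne_zero_of_mul hGv
  obtain ⟨h1, h2⟩ := hmain m hm M (fun i => aeval v (g i)) (pt_comp a b g e' hY.hom c hgc v hv)
    hBu hu0
  refine ⟨fun i => by rw [aeval_bind₁]; exact h1 i, fun S hS => ?_⟩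
  have h3 := h2 S (fun z hz => by
    have := hS z hz
    simp only [aeval_bind₁] at this
    exact this)
  refine (hh.trans (mul_le_mul_of_nonneg_left h3 (Int.natCast_nonneg _))).trans (le_of_eq ?_)
  push_cast
  ring

/-- **Curves on covers**, linear bound. -/
theorem cover_linear {N n d : ℕ} {K : Type} [Field K] [Algebra ℂ K] {a : Fin (N + 1) → K}
    {f : Fin (n + 1) → MvPolynomial (Fin (N + 1)) ℂ} {e : ℕ} (hX : IsPair d a f e) :
    ∃ m0 : ℕ, ∀ m, m0 ≤ m → ∀ (N' : ℕ) (K' : Type) [Field K'] [Algebra ℂ K'] [Algebra K K']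
      [IsScalarTower ℂ K K'] (b : Fin (N' + 1) → K')
      (g : Fin (N + 1) → MvPolynomial (Fin (N' + 1)) ℂ) (e' : ℕ), IsCover a b g e' →
      ∃ (G : MvPolynomial (Fin (N' + 1)) ℂ) (D A : ℕ), G.IsHomogeneous D ∧ aeval b G ≠ 0 ∧
        ∀ (M : Type) [Field M] [Algebra ℂ M] [IsFF ℂ M] (v : Fin (N' + 1) → M),
          PtF (F := ℂ) b v → aeval v G ≠ 0 → (∀ i, aeval v (bind₁ g (f i)) ≠ 0) ∧
          ∀ S : Finset (Place ℂ M), (∀ z : Place ℂ M, z ∉ S →
            HighContact m (fun i => aeval v (bind₁ g (f i))) z) →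
          pht ℂ v ≤ A * max (2 * canDeg ℂ M + 3 * S.card) 0 ∧
          (Nonconst v → pht ℂ v ≤ (5 * A : ℕ) * (canDeg ℂ M + S.card)) := by
  obtain ⟨m0, h⟩ := cover_bound hX
  refine ⟨m0, fun m hm N' K' _ _ _ _ b g e' hY => ?_⟩
  obtain ⟨G, D, A, hG, hGb, hmain⟩ := h m hm N' K' b g e' hY
  refine ⟨G, D, A, hG, hGb, fun M _ _ _ v hv hGv => ?_⟩
  obtain ⟨h1, h2⟩ := hmain M v hv hGv
  refine ⟨h1, fun S hS => ⟨h2 S hS, fun hne => ?_⟩⟩
  refine lin_gen (fun M _ _ u => PtF (F := ℂ) b u ∧ aeval u G ≠ 0)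
    (fun M _ _ u z => HighContact m (fun i => aeval u (bind₁ g (f i))) z) A ?_ ?_ ?_ M v
    ⟨hv, hGv⟩ S hS hne
  · rintro M _ _ u σ ⟨hu, hGu⟩
    refine ⟨fun G D hG hGa => ?_, ?_⟩
    · rw [aeval_map_hom, hu G D hG hGa, map_zero]
    · rw [aeval_map_hom]
      exact (map_ne_zero σ).2 hGu
  · rintro M _ _ u σ z z0 e he hov ⟨hu, hGu⟩ hQ
    have h3 := hQ.pull σ he hov
    simp only [aeval_map_hom]
    exact h3
  · rintro M _ _ _ u ⟨hu, hGu⟩ S hS
    exact (hmain M u hu hGu).2 S hS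

end Pool.Agent.Q271.RC
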