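import Pool.Agent.Q72.NA.Lin

/-!
Places of high contact with the boundary.
-/

set_option autoImplicit false

namespace Pool.Agent.Q271.RC

open MvPolynomial FF Pool.Agent.W603.LV Pool.Agent.W603.PV Pool.Agent.W602.GT
open Pool.Agent.Q72.NA

/-- At the place `z` the orders of the functions `v 0, …, v n` are all equal, or two of them differ
by at least `m`. -/
def HighContact {M : Type} [Field M] [Algebra ℂ M] {n : ℕ} (m : ℕ) (v : Fin (n + 1) → M)
    (z : Place ℂ M) : Prop :=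
  (∀ i, z.ord (v i) = z.ord (v 0)) ∨ ∃ i j, (m : ℤ) ≤ z.ord (v i) - z.ord (v j)

variable {M : Type} [Field M] [Algebra ℂ M] [IsFF ℂ M] {n : ℕ}

theorem sum_abs (g : M) (hg : g ≠ 0) (T : Finset (Place ℂ M)) :
    ∑ z ∈ T, |z.ord g| ≤ 2 * hgt ℂ g := by
  classical
  obtain ⟨T', hT'⟩ : ∃ T' : Finset (Place ℂ M), T ⊆ T' ∧ ∀ z, z.ord g ≠ 0 → z ∈ T' := by
    refine ⟨T ∪ (finite_support (k := ℂ) g).toFinset, Finset.subset_union_left, fun z hz => ?_⟩
    rw [Finset.mem_union]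
    right
    simpa using hz
  have h1 : hgt ℂ g = ∑ z ∈ T', max (-z.ord g) 0 := hgt_finset g T' hT'.2
  have h2 : hgt ℂ g = ∑ z ∈ T', max (z.ord g) 0 := by
    rw [← hgt_inv, hgt_finset g⁻¹ T' (fun z hz => hT'.2 z (by
      rw [z.ord_inv] at hz
      exact fun h => hz (by rw [h, neg_zero])))]
    refine Finset.sum_congr rfl fun z _ => ?_
    rw [z.ord_inv, neg_neg]
  calc ∑ z ∈ T, |z.ord g| ≤ ∑ z ∈ T', |z.ord g| :=
        Finset.sum_le_sum_of_subset_of_nonneg hT'.1 fun _ _ _ => abs_nonneg _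
    _ = ∑ z ∈ T', (max (-z.ord g) 0 + max (z.ord g) 0) := by
        refine Finset.sum_congr rfl fun z _ => ?_
        rcases le_total 0 (z.ord g) with h | h
        · rw [abs_of_nonneg h, max_eq_right (by omega), max_eq_left h, zero_add]
        · rw [abs_of_nonpos h, max_eq_left (by omega), max_eq_right h, add_zero]
    _ = 2 * hgt ℂ g := by
        rw [Finset.sum_add_distrib, ← h1, ← h2]
        ring

/-- the number of the places of high contact -/
theorem card_contact (v : Fin (n + 1) → M) (hv : ∀ i, v i ≠ 0) (H : ℤ)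
    (hH : ∀ i, hgt ℂ (v i / v 0) ≤ H) (m : ℕ) (hm : 0 < m) (S : Finset (Place ℂ M))
    (hS : ∀ z : Place ℂ M, z ∉ S → HighContact m v z) :
    ∃ Z : Finset (Place ℂ M), (m : ℤ) * Z.card ≤ 2 * (n + 1) * H ∧
      ∀ z : Place ℂ M, z ∉ S → z ∉ Z → ∀ i, z.ord (v i) = z.ord (v 0) := by
  classical
  obtain ⟨T, hT⟩ := exists_supp (k := ℂ) Finset.univ v
  let Z : Finset (Place ℂ M) := T.filter fun z => z ∉ S ∧ ¬ ∀ i, z.ord (v i) = z.ord (v 0)
  refine ⟨Z, ?_, ?_⟩
  · have h1 : ∀ z ∈ Z, (m : ℤ) ≤ ∑ i, |z.ord (v i / v 0)| := by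
      intro z hz
      obtain ⟨-, hzS, hz0⟩ := Finset.mem_filter.1 hz
      obtain ⟨i, j, hij⟩ := (hS z hzS).resolve_left hz0
      have hne : i ≠ j := by
        rintro rfl
        rw [sub_self] at hij
        omega
      have h2 : z.ord (v i) - z.ord (v j) ≤ |z.ord (v i / v 0)| + |z.ord (v j / v 0)| := by
        rw [z.ord_div (hv i) (hv 0), z.ord_div (hv j) (hv 0)]
        have h3 := le_abs_self (z.ord (v i) - z.ord (v 0))
        have h4 := neg_le_abs (z.ord (v j) - z.ord (v 0))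
        omega
      have h3 : |z.ord (v i / v 0)| + |z.ord (v j / v 0)| ≤ ∑ i, |z.ord (v i / v 0)| := by
        rw [← Finset.sum_pair (f := fun i => |z.ord (v i / v 0)|) hne]
        exact Finset.sum_le_sum_of_subset_of_nonneg (Finset.subset_univ _)
          fun _ _ _ => abs_nonneg _
      omega
    calc (m : ℤ) * Z.card = ∑ _z ∈ Z, (m : ℤ) := by
          rw [Finset.sum_const, nsmul_eq_mul]
          ring
      _ ≤ ∑ z ∈ Z, ∑ i, |z.ord (v i / v 0)| := Finset.sum_le_sum h1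
      _ = ∑ i, ∑ z ∈ Z, |z.ord (v i / v 0)| := Finset.sum_comm
      _ ≤ ∑ _i : Fin (n + 1), 2 * H := by
          refine Finset.sum_le_sum fun i _ => ?_
          refine (sum_abs _ (div_ne_zero (hv i) (hv 0)) Z).trans ?_
          have := hH i
          omega
      _ = 2 * (n + 1) * H := by
          rw [Finset.sum_const, Finset.card_univ, Fintype.card_fin, nsmul_eq_mul]
          push_cast
          ring
  · intro z hzS hzZ
    by_contra hcon
    apply hzZ
    refine Finset.mem_filter.2 ⟨?_, hzS, hcon⟩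
    by_contra hzT
    apply hcon
    intro i
    have h1 : ∀ i, z.ord (v i) = 0 := fun i => by
      by_contra h
      exact hzT (hT i (Finset.mem_univ i) z h)
    rw [h1, h1]

/-- the height as a finite sum -/
theorem pht_sum {N : ℕ} (u : Fin (N + 1) → M) (hu : ∃ j, u j ≠ 0) (T : Finset (Place ℂ M))
    (hT : ∀ j, ∀ P : Place ℂ M, P.ord (u j) ≠ 0 → P ∈ T) :
    pht ℂ u = ∑ P ∈ T, (- pord P u) := by
  unfold pht
  rw [finsum_eq_sum_of_support_subset (s := T), Finset.sum_neg_distrib]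
  intro P hP
  by_contra hcon
  apply hP
  obtain ⟨i, hi, h⟩ := exists_pord P hu
  simp only
  rw [← h]
  by_contra h'; exact hcon (hT i P h')

/-- the height of the point given by forms of degree `e` -/
theorem pht_forms {N : ℕ} (u : Fin (N + 1) → M) (f : Fin (n + 1) → MvPolynomial (Fin (N + 1)) ℂ)
    (e : ℕ) (hf : ∀ i, (f i).IsHomogeneous e) (hu : ∃ j, u j ≠ 0)
    (hv : ∃ i, aeval u (f i) ≠ 0) : pht ℂ (fun i => aeval u (f i)) ≤ e * pht ℂ u := by
  classical
  obtain ⟨T1, hT1⟩ := exists_supp (k := ℂ) Finset.univ u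
  obtain ⟨T2, hT2⟩ := exists_supp (k := ℂ) Finset.univ (fun i => aeval u (f i))
  rw [pht_sum u hu (T1 ∪ T2) (fun j P h => Finset.mem_union_left _ (hT1 j (Finset.mem_univ _) P h)),
    pht_sum (fun i => aeval u (f i)) hv (T1 ∪ T2)
      (fun j P h => Finset.mem_union_right _ (hT2 j (Finset.mem_univ _) P h)), Finset.mul_sum]
  refine Finset.sum_le_sum fun P _ => ?_
  obtain ⟨i, hi, h⟩ := exists_pord P hv
  have h1 : Ge P (e * pord P u) (aeval u (f i)) :=
    ge_form P u (hf i) (fun α _ => by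
      by_cases h0 : (f i).coeff α = 0
      · exact Or.inl (by rw [h0, map_zero])
      · right
        rw [P.ord_const h0])
  have h2 := h1.resolve_left hi
  rw [← h]
  show -P.ord (aeval u (f i)) ≤ e * -pord P u
  linarith

/-- the height of a ratio of forms -/
theorem hgt_forms {N : ℕ} (u : Fin (N + 1) → M) (f : Fin (n + 1) → MvPolynomial (Fin (N + 1)) ℂ)
    (e : ℕ) (hf : ∀ i, (f i).IsHomogeneous e) (hu : ∃ j, u j ≠ 0)
    (hv : aeval u (f 0) ≠ 0) (i : Fin (n + 1)) :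
    hgt ℂ (aeval u (f i) / aeval u (f 0)) ≤ e * pht ℂ u :=
  (hgt_ratio_le (fun i => aeval u (f i)) (l := 0) hv i).trans (pht_forms u f e hf hu ⟨0, hv⟩)

/-- **The height inequality for high contact.** -/
theorem contact_bound {N : ℕ} {K : Type} [Field K] [Algebra ℂ K] (a : Fin (N + 1) → K)
    (f : Fin (n + 1) → MvPolynomial (Fin (N + 1)) ℂ) (e : ℕ) (hf : ∀ i, (f i).IsHomogeneous e)
    (B : MvPolynomial (Fin (N + 1)) ℂ) (A : ℕ)
    (hB : ∀ (M : Type) [Field M] [Algebra ℂ M] [IsFF ℂ M] (u : Fin (N + 1) → M),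
      PtF (F := ℂ) a u → aeval u B ≠ 0 → (∃ j, u j ≠ 0) → (∀ i, aeval u (f i) ≠ 0) ∧
        ∀ S : Finset (Place ℂ M), (∀ z : Place ℂ M, z ∉ S → ∀ i,
            z.ord (aeval u (f i)) = z.ord (aeval u (f 0))) →
          pht ℂ u ≤ A * max (2 * canDeg ℂ M + 3 * S.card) 0)
    (m : ℕ) (hm : 12 * A * (n + 1) * e < m)
    (M : Type) [Field M] [Algebra ℂ M] [IsFF ℂ M] (u : Fin (N + 1) → M)
    (hu : PtF (F := ℂ) a u) (hBu : aeval u B ≠ 0) (hu0 : ∃ j, u j ≠ 0) (S : Finset (Place ℂ M))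
    (hS : ∀ z : Place ℂ M, z ∉ S → HighContact m (fun i => aeval u (f i)) z) :
    pht ℂ u ≤ 2 * A * max (2 * canDeg ℂ M + 3 * S.card) 0 := by
  classical
  obtain ⟨hf0, h1⟩ := hB M u hu hBu hu0
  have hm0 : 0 < m := by omega
  have hpos : 0 ≤ pht ℂ u := by
    obtain ⟨j, hj⟩ := hu0
    have h2 := hgt_ratio_le u hj j
    refine le_trans ?_ h2
    unfold hgt
    exact finsum_nonneg fun _ => le_max_right _ _
  obtain ⟨Z, hZ, hZ2⟩ := card_contact (fun i => aeval u (f i)) hf0 (e * pht ℂ u)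
    (fun i => hgt_forms u f e hf hu0 (hf0 0) i) m hm0 S hS
  have h2 := h1 (S ∪ Z) (fun z hz i => by
    rw [Finset.mem_union, not_or] at hz
    exact hZ2 z hz.1 hz.2 i)
  have h3 : ((S ∪ Z).card : ℤ) ≤ S.card + Z.card := by exact_mod_cast Finset.card_union_le S Z
  have hA0 : (0 : ℤ) ≤ A := Int.natCast_nonneg _
  have hZ0 : (0 : ℤ) ≤ Z.card := Int.natCast_nonneg _
  have h4 : max (2 * canDeg ℂ M + 3 * ((S ∪ Z).card : ℤ)) 0 ≤
      max (2 * canDeg ℂ M + 3 * (S.card : ℤ)) 0 + 3 * Z.card := by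
    rcases le_total (2 * canDeg ℂ M + 3 * (S.card : ℤ)) 0 with h | h
    · rw [max_eq_right h]
      refine max_le ?_ ?_ <;> omega
    · rw [max_eq_left h]
      refine max_le ?_ ?_ <;> omega
  have h5 : pht ℂ u ≤ A * max (2 * canDeg ℂ M + 3 * (S.card : ℤ)) 0 + 3 * A * Z.card := by
    refine h2.trans ((mul_le_mul_of_nonneg_left h4 hA0).trans (le_of_eq ?_))
    ring
  -- the number of the places
  have h6 : 6 * (A : ℤ) * Z.card ≤ pht ℂ u := by
    have h7 : (m : ℤ) * (6 * A * Z.card) ≤ m * pht ℂ u := by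
      have h8 : (6 * A : ℤ) * ((m : ℤ) * Z.card) ≤ (6 * A) * (2 * (n + 1) * (e * pht ℂ u)) :=
        mul_le_mul_of_nonneg_left hZ (by positivity)
      have h9 : ((12 * A * (n + 1) * e : ℕ) : ℤ) ≤ m := by exact_mod_cast hm.le
      calc (m : ℤ) * (6 * A * Z.card) = (6 * A : ℤ) * ((m : ℤ) * Z.card) := by ring
        _ ≤ (6 * A) * (2 * (n + 1) * (e * pht ℂ u)) := h8
        _ = ((12 * A * (n + 1) * e : ℕ) : ℤ) * pht ℂ u := by push_cast; ring
        _ ≤ m * pht ℂ u := mul_le_mul_of_nonneg_right h9 hpos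
    exact le_of_mul_le_mul_left h7 (by exact_mod_cast hm0)
  linarith

end Pool.Agent.Q271.RC
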