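import Pool.Agent.Q271.RC.FPair
import Pool.Agent.Q271.RC.Cover

/-!
# High contact over function fields
-/

set_option autoImplicit false

namespace Pool.Agent.Q271.RC

open MvPolynomial FF Pool.Agent.W603.LV Pool.Agent.W603.PV Pool.Agent.W602.GT Pool.Agent.Q72.NA

/-- contact places of high order need not be counted -/
theorem pairF_contact {N n d : ℕ} (F : Type) [Field F] [Algebra ℂ F] [IsFF ℂ F]
    (S₀ : Finset (Place ℂ F))
    (K : Type) [Field K] [Algebra ℂ K] [Algebra F K] [IsScalarTower ℂ F K] (a : Fin (N + 1) → K)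
    (f : Fin (n + 1) → MvPolynomial (Fin (N + 1)) F) (e : ℕ) (hX : IsPairF F S₀ d a f e) :
    ∃ (G : MvPolynomial (Fin (N + 1)) F) (E A C m0 : ℕ), G.IsHomogeneous E ∧ aeval a G ≠ 0 ∧
      ∀ m, m0 ≤ m → ∀ (L : Type) [Field L] [Algebra ℂ L] [Algebra F L] [IsScalarTower ℂ F L]
        [Module.Finite F L] (u : Fin (N + 1) → L), PtF (F := F) a u → aeval u G ≠ 0 →
        (∃ j, u j ≠ 0) → (∀ i, aeval u (f i) ≠ 0) ∧
        ∀ T : Finset (Place ℂ L),
          (∀ z : Place ℂ L, z ∉ T → HighContact m (fun i => aeval u (f i)) z) →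
          pht ℂ u ≤ A * (canDeg ℂ L + T.card) + C * Module.finrank F L := by
  classical
  obtain ⟨G, E, A, C, hG, hGa, hmain⟩ := pairF F S₀ K a f e hX
  obtain ⟨h0, hh0⟩ : ∃ h0 : ℕ, (h0 : ℤ) = coefH f := ⟨(coefH f).toNat,
    Int.toNat_of_nonneg (coefH_nonneg f)⟩
  refine ⟨G, E, 2 * A, 2 * (C + 2 * A * (n + 1) * h0), 4 * A * (n + 1) * e + 1, hG, hGa, ?_⟩
  intro m hm L _ _ _ _ _ u hu hGu hu0
  have hL : IsFF ℂ L := isFF_of_finite (k := ℂ) (F := F)
  obtain ⟨hf0, h1⟩ := hmain L u hu hGu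
  refine ⟨hf0, fun T hT => ?_⟩
  have hm0 : 0 < m := by omega
  have hpos : 0 ≤ pht ℂ u := by
    obtain ⟨j, hj⟩ := hu0
    refine le_trans ?_ (hgt_ratio_le u hj j)
    exact hgt_nonneg _
  have hr0 : (0 : ℤ) ≤ Module.finrank F L := Int.natCast_nonneg _
  have hA0 : (0 : ℤ) ≤ A := Int.natCast_nonneg _
  obtain ⟨Z, hZ, hZ2⟩ := card_contact (fun i => aeval u (f i)) hf0
    (e * pht ℂ u + h0 * Module.finrank F L)
    (fun i => (hgt_ratio_le (fun i => aeval u (f i)) (l := 0) (hf0 0) i).trans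
      ((pht_formsF u f e hX.hom hu0 ⟨0, hf0 0⟩).trans (le_of_eq (by rw [hh0])))) m hm0 T hT
  have h2 := h1 (T ∪ Z) (fun z hz i => by
    rw [Finset.mem_union, not_or] at hz
    exact hZ2 z hz.1 hz.2 i)
  have h3 : ((T ∪ Z).card : ℤ) ≤ T.card + Z.card := by exact_mod_cast Finset.card_union_le T Z
  have h4 : pht ℂ u ≤ A * (canDeg ℂ L + T.card) + A * Z.card + C * Module.finrank F L := by
    refine h2.trans ?_
    have := mul_le_mul_of_nonneg_left h3 hA0
    nlinarith
  have h5 : 2 * ((A : ℤ) * Z.card) ≤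
      pht ℂ u + 4 * A * (n + 1) * h0 * Module.finrank F L := by
    have h6 : (m : ℤ) * (2 * (A * Z.card)) ≤
        m * (pht ℂ u + 4 * A * (n + 1) * h0 * Module.finrank F L) := by
      have h7 := mul_le_mul_of_nonneg_left hZ (show (0 : ℤ) ≤ 2 * A by positivity)
      have h8 : ((4 * A * (n + 1) * e : ℕ) : ℤ) ≤ m := by
        have : 4 * A * (n + 1) * e ≤ m := by omega
        exact_mod_cast this
      have h9 : (1 : ℤ) ≤ m := by exact_mod_cast hm0
      have h10 : (0 : ℤ) ≤ 4 * A * (n + 1) * h0 * Module.finrank F L := by positivity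
      calc (m : ℤ) * (2 * (A * Z.card)) = 2 * A * (m * Z.card) := by ring
        _ ≤ 2 * A * (2 * (n + 1) * (e * pht ℂ u + h0 * Module.finrank F L)) := h7
        _ = ((4 * A * (n + 1) * e : ℕ) : ℤ) * pht ℂ u +
            1 * (4 * A * (n + 1) * h0 * Module.finrank F L) := by push_cast; ring
        _ ≤ m * pht ℂ u + m * (4 * A * (n + 1) * h0 * Module.finrank F L) :=
            add_le_add (mul_le_mul_of_nonneg_right h8 hpos) (mul_le_mul_of_nonneg_right h9 h10)
        _ = _ := by ring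
    exact le_of_mul_le_mul_left h6 (by exact_mod_cast hm0)
  push_cast
  nlinarith

section cover

variable {F : Type} [Field F] [Algebra ℂ F] [IsFF ℂ F] {N N' : ℕ} {K K' : Type} [Field K]
  [Algebra ℂ K] [Field K'] [Algebra ℂ K'] [Algebra F K] [Algebra F K'] [IsScalarTower ℂ F K]
  [IsScalarTower ℂ F K'] [Algebra K K'] [IsScalarTower F K K'] (a : Fin (N + 1) → K)
  (b : Fin (N' + 1) → K') (g : Fin (N + 1) → MvPolynomial (Fin (N' + 1)) F) (e' : ℕ)
  (hg : ∀ i, (g i).IsHomogeneous e') (c : K')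
  (hgc : ∀ i, aeval b (g i) = c * algebraMap K K' (a i))

omit [Algebra ℂ F] [IsFF ℂ F] [Algebra ℂ K] [Algebra ℂ K'] [IsScalarTower ℂ F K]
  [IsScalarTower ℂ F K'] in
include hgc in
theorem gen_compF {G : MvPolynomial (Fin (N + 1)) F} {D : ℕ} (hG : G.IsHomogeneous D) :
    aeval b (bind₁ g G) = c ^ D * algebraMap K K' (aeval a G) := by
  rw [aeval_bind₁]
  have h2 : (fun i => aeval b (g i)) = fun i => c * algebraMap K K' (a i) := funext hgc
  have h3 : aeval (fun i => c * algebraMap K K' (a i)) G =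
      c ^ D * aeval (fun i => algebraMap K K' (a i)) G := by
    rw [aeval_def, aeval_def, eval₂_eq', eval₂_eq', Finset.mul_sum]
    refine Finset.sum_congr rfl fun α hα => ?_
    have h1 : ∑ i, α i = D := by
      have := hG (mem_support_iff.1 hα)
      rw [← this, Finsupp.weight_apply, Finsupp.sum_fintype _ _ (by simp)]
      simp
    simp only [mul_pow, Finset.prod_mul_distrib]
    rw [Finset.prod_pow_eq_pow_sum, h1]
    ring
  have e1 : (aeval (fun i => algebraMap K K' (a i)) : MvPolynomial (Fin (N + 1)) F →ₐ[F] K') =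
      (IsScalarTower.toAlgHom F K K').comp (aeval a) := by
    apply MvPolynomial.algHom_ext
    intro i
    simp
  rw [h2, h3, e1]
  rfl

omit [Algebra ℂ F] [IsFF ℂ F] [Algebra ℂ K] [Algebra ℂ K'] [IsScalarTower ℂ F K]
  [IsScalarTower ℂ F K'] in
include hg hgc in
/-- the point given by forms -/
theorem pt_compF {M : Type} [Field M] [Algebra F M] (v : Fin (N' + 1) → M)
    (hv : PtF (F := F) b v) : PtF (F := F) a (fun i => aeval v (g i)) := by
  intro G D hG hGa
  have h2 := hv (bind₁ g G) (e' * D) (hG.aeval g hg) (by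
    rw [gen_compF a b g c hgc hG, hGa, map_zero, mul_zero])
  rwa [aeval_bind₁] at h2

omit [Algebra ℂ K] [IsScalarTower ℂ F K] in
include hg hgc in
/-- the height of `v` is bounded by the height of `g v` -/
theorem height_upF (hc : c ≠ 0) (ha : ∃ j, a j ≠ 0) (hb : ∃ j, b j ≠ 0)
    (hrat : ∀ f : K', RatF (F := F) b f)
    (hK : IntermediateField.adjoin F {g : K | ∃ i j, a j ≠ 0 ∧ g = a i / a j} = ⊤)
    (halg : Algebra.IsAlgebraic K K') :
    ∃ (H : MvPolynomial (Fin (N' + 1)) F) (E C C' : ℕ), H.IsHomogeneous E ∧ aeval b H ≠ 0 ∧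
      ∀ (M : Type) [Field M] [Algebra ℂ M] [Algebra F M] [IsScalarTower ℂ F M] [IsFF ℂ M]
        [Module.Finite F M] (v : Fin (N' + 1) → M),
        PtF (F := F) b v → aeval v H ≠ 0 → (∃ j, v j ≠ 0) ∧ (∃ i, aeval v (g i) ≠ 0) ∧
          pht ℂ v ≤ C * pht ℂ (fun i => aeval v (g i)) + C' * Module.finrank F M := by
  classical
  obtain ⟨l, hl⟩ := ha
  obtain ⟨l', hl'⟩ := hb
  obtain ⟨t, ht⟩ := IsFF.exists_transcendental (k := ℂ) (K := F)
  have hgl : aeval b (g l) ≠ 0 := by
    rw [hgc]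
    exact mul_ne_zero hc ((map_ne_zero _).2 hl)
  let x0 : Fin (N + 1) → K' := fun i => aeval b (g i) / aeval b (g l)
  have hx0 : ∀ i, x0 i = algebraMap K K' (a i / a l) := by
    intro i
    show aeval b (g i) / aeval b (g l) = _
    rw [hgc, hgc, mul_div_mul_left _ _ hc, map_div₀]
  -- `K'` is algebraic over `F (x0)`
  have halg0 : ∀ z : K', IsAlgebraic (IntermediateField.adjoin F (Set.range x0)) z := by
    intro z
    have h1 : ∀ y : K, algebraMap K K' y ∈ IntermediateField.adjoin F (Set.range x0) := by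
      intro y
      have h2 : y ∈ IntermediateField.adjoin F {g : K | ∃ i j, a j ≠ 0 ∧ g = a i / a j} := by
        rw [hK]
        exact IntermediateField.mem_top
      have h3 : IntermediateField.adjoin F {g : K | ∃ i j, a j ≠ 0 ∧ g = a i / a j} ≤
          (IntermediateField.adjoin F (Set.range x0)).comap (IsScalarTower.toAlgHom F K K') := by
        rw [IntermediateField.adjoin_le_iff]
        rintro _ ⟨i, j, hj, rfl⟩
        show algebraMap K K' (a i / a j) ∈ IntermediateField.adjoin F (Set.range x0)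
        have h4 : algebraMap K K' (a i / a j) = x0 i / x0 j := by
          rw [hx0, hx0, ← map_div₀]
          congr 1
          field_simp
        rw [h4]
        exact div_mem (IntermediateField.subset_adjoin _ _ ⟨i, rfl⟩)
          (IntermediateField.subset_adjoin _ _ ⟨j, rfl⟩)
      exact h3 h2
    exact isAlg_of_hom ((algebraMap K K').codRestrict _ h1) (fun _ => rfl) (halg.isAlgebraic z)
  let x : Fin (N + 1 + 1) → K' := Fin.cons (algebraMap F K' t) x0
  have halg' : ∀ z : K', IsAlgebraic (IntermediateField.adjoin ℂ (Set.range x)) z := fun z =>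
    alg_fam x0 halg0 (IntermediateField.adjoin ℂ (Set.range x))
      (fun i => IntermediateField.subset_adjoin _ _ ⟨i.succ, by simp [x]⟩) t ht
      (IntermediateField.subset_adjoin _ _ ⟨0, by simp [x]⟩) z
  choose D cc hc0 hc1 using fun i : Fin (N' + 1) =>
    Pool.Agent.W603.PV.exists_rel' x (b i / b l') (halg' _)
  let R' : Subalgebra ℂ K' := Algebra.adjoin ℂ (((Finset.univ.image x) ∪
    (Finset.univ.image fun i => b i / b l') : Finset K') : Set K')
  have hR' : R'.FG := ⟨_, rfl⟩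
  have hxR : ∀ i, x i ∈ R' := fun i => Algebra.subset_adjoin (by
    simp only [Finset.coe_union, Set.mem_union]
    exact Or.inl (by simp))
  have hbR : ∀ i, b i / b l' ∈ R' := fun i => Algebra.subset_adjoin (by
    simp only [Finset.coe_union, Set.mem_union]
    exact Or.inr (by simp))
  let x' : Fin (N + 1 + 1) → R' := fun i => ⟨x i, hxR i⟩
  let W : Finset K' := Finset.univ.image fun i => aeval x (cc i (D i))
  obtain ⟨B, E, hB, hBb, hev⟩ := evalW hrat R' hR' W (by
    intro w hw
    simp only [W, Finset.mem_image, Finset.mem_univ, true_and] at hw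
    obtain ⟨i, rfl⟩ := hw
    exact hc0 i)
  obtain ⟨ht0, hht0⟩ : ∃ h0 : ℕ, (h0 : ℤ) = hgt ℂ t := ⟨(hgt ℂ t).toNat,
    Int.toNat_of_nonneg (hgt_nonneg _)⟩
  obtain ⟨κ, hκ⟩ : ∃ κ : ℕ, κ = ∑ j, ∑ d ∈ Finset.range (D j + 1), (cc j d).totalDegree :=
    ⟨_, rfl⟩
  refine ⟨B * (X l' * g l), E + (1 + e'), κ * (N + 1), κ * ht0,
    hB.mul ((isHomogeneous_X _ _).mul (hg l)), ?_, ?_⟩
  · rw [map_mul, map_mul, aeval_X]
    exact mul_ne_zero hBb (mul_ne_zero hl' hgl)
  intro M _ _ _ _ _ _ v hv hHv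
  rw [map_mul, map_mul, aeval_X] at hHv
  have hvl' : v l' ≠ 0 := left_ne_zero_of_mul (right_ne_zero_of_mul hHv)
  have hul : aeval v (g l) ≠ 0 := right_ne_zero_of_mul (right_ne_zero_of_mul hHv)
  refine ⟨⟨l', hvl'⟩, ⟨l, hul⟩, ?_⟩
  obtain ⟨φ, hφ, hφW⟩ := hev M v hv (left_ne_zero_of_mul hHv)
  have hφx : ∀ i : Fin (N + 1), φ (x' i.succ) = aeval v (g i) / aeval v (g l) := by
    intro i
    have h1 := hφ (x' i.succ) (g i) (g l) e' (hg i) (hg l) (by
      show x i.succ * aeval b (g l) = aeval b (g i)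
      have h2 : x i.succ = aeval b (g i) / aeval b (g l) := by simp [x, x0]
      rw [h2, div_mul_cancel₀ _ hgl])
    rw [eq_div_iff hul, h1]
  have hφt : φ (x' 0) = algebraMap F M t := by
    have h1 := hφ (x' 0) (C t) 1 0 (isHomogeneous_C _ _) (isHomogeneous_one _ _) (by
      show x 0 * aeval b (1 : MvPolynomial (Fin (N' + 1)) F) = aeval b (C t)
      rw [map_one, mul_one, aeval_C]
      simp [x])
    rw [map_one, mul_one, aeval_C] at h1
    exact h1
  have hφb : ∀ i, φ ⟨b i / b l', hbR i⟩ = v i / v l' := by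
    intro i
    have h1 := hφ ⟨b i / b l', hbR i⟩ (X i) (X l') 1 (isHomogeneous_X _ _) (isHomogeneous_X _ _) (by
      rw [aeval_X, aeval_X]
      show b i / b l' * b l' = b i
      field_simp)
    rw [aeval_X, aeval_X] at h1
    rw [eq_div_iff hvl', h1]
  have hval : ∀ p : MvPolynomial (Fin (N + 1 + 1)) ℂ, ((aeval x' p : R') : K') = aeval x p := by
    intro p
    have e1 : (R'.val.comp (aeval x') : MvPolynomial (Fin (N + 1 + 1)) ℂ →ₐ[ℂ] K') = aeval x := by
      apply MvPolynomial.algHom_ext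
      intro i
      simp [x']
    exact DFunLike.congr_fun e1 p
  have hφp : ∀ p : MvPolynomial (Fin (N + 1 + 1)) ℂ,
      φ (aeval x' p) = aeval (fun i => φ (x' i)) p := by
    intro p
    have e1 : (φ.comp (aeval x') : MvPolynomial (Fin (N + 1 + 1)) ℂ →ₐ[ℂ] M) =
        aeval (fun i => φ (x' i)) := by
      apply MvPolynomial.algHom_ext
      intro i
      simp
    exact DFunLike.congr_fun e1 p
  have hht := ht_alg (fun i => φ (x' i)) v l' hvl' D cc
    (fun i => by
      rw [← hφp]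
      refine hφW _ ?_
      rw [hval]
      simp only [W, Finset.mem_image, Finset.mem_univ, true_and]
      exact ⟨i, rfl⟩)
    (fun i => by
      have h1 : (∑ d ∈ Finset.range (D i + 1), aeval x' (cc i d) *
          (⟨b i / b l', hbR i⟩ : R') ^ d : R') = 0 := by
        apply Subtype.ext
        rw [AddSubmonoidClass.coe_finsetSum]
        show ∑ d ∈ Finset.range (D i + 1), ((aeval x' (cc i d) : R') : K') * (b i / b l') ^ d = 0
        simp_rw [hval]
        exact hc1 i
      have h2 := congrArg φ h1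
      rw [map_sum, map_zero] at h2
      rw [← h2]
      refine Finset.sum_congr rfl fun d _ => ?_
      rw [map_mul, map_pow, hφp, hφb])
  refine hht.trans ?_
  rw [← hκ]
  have h3 : (∑ i, hgt ℂ (φ (x' i))) ≤
      (N + 1) * pht ℂ (fun i => aeval v (g i)) + ht0 * Module.finrank F M := by
    rw [Fin.sum_univ_succ, hφt, hgt_algebraMap, hht0]
    have h4 : (∑ i : Fin (N + 1), hgt ℂ (φ (x' i.succ))) ≤
        (N + 1) * pht ℂ (fun i => aeval v (g i)) := by
      calc (∑ i : Fin (N + 1), hgt ℂ (φ (x' i.succ))) ≤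
            ∑ _i : Fin (N + 1), pht ℂ (fun i => aeval v (g i)) := by
            refine Finset.sum_le_sum fun i _ => ?_
            rw [hφx]
            exact hgt_ratio_le (fun i => aeval v (g i)) (l := l) hul i
        _ = _ := by
            rw [Finset.sum_const, Finset.card_univ, Fintype.card_fin, nsmul_eq_mul]
            push_cast
            ring
    linarith
  refine (mul_le_mul_of_nonneg_left h3 (Int.natCast_nonneg _)).trans (le_of_eq ?_)
  push_cast
  ring

end cover

end Pool.Agent.Q271.RC
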