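import Pool.Agent.Q271.RC.Contact
import Pool.Agent.Q72.NA.Alg

/-!
# Pairs over function fields and their covers: definitions
-/

set_option autoImplicit false

namespace Pool.Agent.Q271.RC

open MvPolynomial FF Pool.Agent.W603.LV Pool.Agent.W603.PV Pool.Agent.W602.GT Pool.Agent.Q72.NA

/-- `a` is the generic point, in homogeneous coordinates, of an integral projective variety over
`F` with the function field `K`: the ratios of the coordinates generate `K` over `F`. -/
def IsGenericF (F : Type) [Field F] {N : ℕ} {K : Type} [Field K] [Algebra F K]
    (a : Fin (N + 1) → K) : Prop :=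
  (∃ j, a j ≠ 0) ∧ IntermediateField.adjoin F {g : K | ∃ i j, a j ≠ 0 ∧ g = a i / a j} = ⊤

/-- `u` is a point, over the extension `L` of `F`, of the projective variety over `F` with the
generic point `a`. -/
def IsPointF (F : Type) [Field F] {N : ℕ} {K : Type} [Field K] [Algebra F K]
    (a : Fin (N + 1) → K) {L : Type} [Field L] [Algebra F L] (u : Fin (N + 1) → L) : Prop :=
  ∀ (H : MvPolynomial (Fin (N + 1)) F) (D : ℕ), H.IsHomogeneous D → aeval a H = 0 → aeval u H = 0

/-- The place `P` of a field `K` containing the function field `F` is over the point `v` of the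
curve. -/
def IsOver {F K : Type} [Field F] [Algebra ℂ F] [Field K] [Algebra ℂ K] [Algebra F K]
    (P : Place ℂ K) (v : Place ℂ F) : Prop :=
  ∀ c : F, 0 < v.ord c → 0 < P.ord (algebraMap F K c)

/-- A pair over the function field `F` of a curve `B`: an integral projective variety `X` over `F`
(generic point `a`, function field `K`) and forms `f 0, …, f n` over `F` of degree `e` which do not
vanish on `X`, whose ratios define a generically finite rational map from `X` to a closed subvariety
of projective `n`-space, such that the total space over `B - S₀` with boundary the zeros and poles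
of the ratios is of log general type, of dimension `d` over `ℂ`. -/
structure IsPairF (F : Type) [Field F] [Algebra ℂ F] (S₀ : Finset (Place ℂ F)) {N n : ℕ} {K : Type}
    [Field K] [Algebra ℂ K] [Algebra F K] (d : ℕ) (a : Fin (N + 1) → K)
    (f : Fin (n + 1) → MvPolynomial (Fin (N + 1)) F) (e : ℕ) : Prop where
  gen : IsGenericF F a
  hom : ∀ i, (f i).IsHomogeneous e
  ne : ∀ i, aeval a (f i) ≠ 0
  fin : Algebra.IsAlgebraic
    (IntermediateField.adjoin F (Set.range fun i => aeval a (f i) / aeval a (f 0))) K
  lgt : LogGeneralType ℂ K d fun P =>
    (∃ i, P.ord (aeval a (f i)) ≠ P.ord (aeval a (f 0))) ∨ ∃ v ∈ S₀, IsOver P v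

/-- The forms `g 0, …, g N` over `F` of degree `e'` define a generically finite dominant rational
map from the projective variety `Y` over `F`, with generic point `b` and function field `K'`, to the
projective variety with generic point `a`. -/
structure IsCoverF (F : Type) [Field F] {N N' : ℕ} {K K' : Type} [Field K] [Field K']
    [Algebra F K] [Algebra F K'] [Algebra K K'] (a : Fin (N + 1) → K) (b : Fin (N' + 1) → K')
    (g : Fin (N + 1) → MvPolynomial (Fin (N' + 1)) F) (e' : ℕ) : Prop where
  gen : IsGenericF F b
  hom : ∀ i, (g i).IsHomogeneous e'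
  map : ∃ c : K', c ≠ 0 ∧ ∀ i, aeval b (g i) = c * algebraMap K K' (a i)
  alg : Algebra.IsAlgebraic K K'

/-- The cover is ramified to order at least `m` over the boundary, outside of the fibres over the
finite set `S₁` of points of the curve: for all extensions `L` of `F`, all points `v` of `Y`
over `L` on which no `h i` vanishes and all places `z` of `L` which are not over `S₁` the orders of
the functions `h i (v)` are all equal, or two of them differ by at least `m`. Here the `h i` are the
forms `f i (g)`. -/
def RamifiedF (F : Type) [Field F] [Algebra ℂ F] (S₁ : Finset (Place ℂ F)) {N' n : ℕ} {K' : Type}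
    [Field K'] [Algebra F K'] (m : ℕ) (b : Fin (N' + 1) → K')
    (h : Fin (n + 1) → MvPolynomial (Fin (N' + 1)) F) : Prop :=
  ∀ (L : Type) [Field L] [Algebra ℂ L] [Algebra F L] [IsScalarTower ℂ F L]
    (v : Fin (N' + 1) → L), IsPointF F b v → (∀ i, aeval v (h i) ≠ 0) →
    ∀ z : Place ℂ L, (∀ q ∈ S₁, ¬ IsOver z q) → HighContact m (fun i => aeval v (h i)) z

end Pool.Agent.Q271.RC
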