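import Pool.Agent.Q271.RC.FDefs

/-!
# Heights of forms over function fields
-/

set_option autoImplicit false

namespace Pool.Agent.Q271.RC

open MvPolynomial FF Pool.Agent.W603.LV Pool.Agent.W603.PV Pool.Agent.W602.GT Pool.Agent.Q72.NA

variable {F L : Type} [Field F] [Algebra ℂ F] [IsFF ℂ F] [Field L] [Algebra ℂ L] [Algebra F L]
  [IsScalarTower ℂ F L] [Module.Finite F L] [IsFF ℂ L] {N n : ℕ}

omit [Algebra ℂ F] [IsFF ℂ F] [IsScalarTower ℂ F L] [Module.Finite F L] [IsFF ℂ L] in
/-- order of the value of a form -/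
theorem ge_formF (P : Place ℂ L) (u : Fin (N + 1) → L)
    {H : MvPolynomial (Fin (N + 1)) F} {d : ℕ} (hH : H.IsHomogeneous d) (κ : ℤ)
    (hc : ∀ α ∈ H.support, Ge P κ (algebraMap F L (H.coeff α))) :
    Ge P (κ + d * pord P u) (aeval u H) := by
  rw [aeval_def, eval₂_eq']
  refine Ge.sum _ _ fun α hα => ?_
  have h1 := (hc α hα).mul (Ge.prod Finset.univ (fun a => u a ^ α a) (fun a => α a * pord P u)
    (fun a _ => (ge_pord P u a).pow (α a)))
  refine h1.mono (le_of_eq ?_)
  have h2 : ∑ a, α a = d := by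
    have := hH (mem_support_iff.1 hα)
    rw [← this, Finsupp.weight_apply, Finsupp.sum_fintype _ _ (by simp)]
    simp
  rw [← Finset.sum_mul]
  congr 2
  exact_mod_cast h2.symm

/-- the height of the coefficients -/
noncomputable def coefH (f : Fin (n + 1) → MvPolynomial (Fin (N + 1)) F) : ℤ :=
  ∑ i, ∑ α ∈ (f i).support, hgt ℂ ((f i).coeff α)

omit [IsFF ℂ F] in
theorem coefH_nonneg (f : Fin (n + 1) → MvPolynomial (Fin (N + 1)) F) : 0 ≤ coefH f :=
  Finset.sum_nonneg fun _ _ => Finset.sum_nonneg fun _ _ => hgt_nonneg _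

/-- the height of the point given by forms over `F` of degree `e` -/
theorem pht_formsF (u : Fin (N + 1) → L) (f : Fin (n + 1) → MvPolynomial (Fin (N + 1)) F)
    (e : ℕ) (hf : ∀ i, (f i).IsHomogeneous e) (hu : ∃ j, u j ≠ 0)
    (hv : ∃ i, aeval u (f i) ≠ 0) :
    pht ℂ (fun i => aeval u (f i)) ≤ e * pht ℂ u + coefH f * Module.finrank F L := by
  classical
  obtain ⟨T1, hT1⟩ := exists_supp (k := ℂ) Finset.univ u
  obtain ⟨T2, hT2⟩ := exists_supp (k := ℂ) Finset.univ (fun i => aeval u (f i))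
  let T3 : Finset (Place ℂ L) := Finset.univ.biUnion fun i => (f i).support.biUnion fun α =>
    (finite_support (k := ℂ) (algebraMap F L ((f i).coeff α))).toFinset
  have hT3 : ∀ i, ∀ α ∈ (f i).support, ∀ z : Place ℂ L,
      z.ord (algebraMap F L ((f i).coeff α)) ≠ 0 → z ∈ T3 := by
    intro i α hα z hz
    refine Finset.mem_biUnion.2 ⟨i, Finset.mem_univ _, Finset.mem_biUnion.2 ⟨α, hα, ?_⟩⟩
    simpa using hz
  let T := (T1 ∪ T2) ∪ T3
  have hm1 : ∀ z, z ∈ T1 → z ∈ T := fun z hz =>
    Finset.mem_union_left _ (Finset.mem_union_left _ hz)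
  have hm2 : ∀ z, z ∈ T2 → z ∈ T := fun z hz =>
    Finset.mem_union_left _ (Finset.mem_union_right _ hz)
  have hm3 : ∀ z, z ∈ T3 → z ∈ T := fun z hz => Finset.mem_union_right _ hz
  rw [pht_sum u hu T (fun j P h => hm1 P (hT1 j (Finset.mem_univ _) P h)),
    pht_sum (fun i => aeval u (f i)) hv T (fun j P h => hm2 P (hT2 j (Finset.mem_univ _) P h)),
    Finset.mul_sum]
  have hcoef : coefH f * Module.finrank F L =
      ∑ P ∈ T, ∑ i, ∑ α ∈ (f i).support, max (-P.ord (algebraMap F L ((f i).coeff α))) 0 := by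
    unfold coefH
    rw [Finset.sum_comm, Finset.sum_mul]
    refine Finset.sum_congr rfl fun i _ => ?_
    rw [Finset.sum_comm, Finset.sum_mul]
    refine Finset.sum_congr rfl fun α hα => ?_
    rw [← hgt_finset (algebraMap F L ((f i).coeff α)) T (fun z hz => hm3 z (hT3 i α hα z hz)),
      hgt_algebraMap]
    ring
  rw [hcoef, ← Finset.sum_add_distrib]
  refine Finset.sum_le_sum fun P _ => ?_
  obtain ⟨i, hi, h⟩ := exists_pord P hv
  set κ : ℤ := ∑ i, ∑ α ∈ (f i).support, max (-P.ord (algebraMap F L ((f i).coeff α))) 0 with hκ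
  have hκ1 : ∀ i, ∀ α ∈ (f i).support, max (-P.ord (algebraMap F L ((f i).coeff α))) 0 ≤ κ := by
    intro i α hα
    refine (Finset.single_le_sum
      (f := fun α => max (-P.ord (algebraMap F L ((f i).coeff α))) 0)
      (fun _ _ => le_max_right _ _) hα).trans ?_
    exact Finset.single_le_sum
      (f := fun i => ∑ α ∈ (f i).support, max (-P.ord (algebraMap F L ((f i).coeff α))) 0)
      (fun _ _ => Finset.sum_nonneg fun _ _ => le_max_right _ _) (Finset.mem_univ i)
  have h1 : Ge P (-κ + e * pord P u) (aeval u (f i)) :=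
    ge_formF P u (hf i) (-κ) (fun α hα => by
      right
      have h2 := hκ1 i α hα
      have h3 := le_max_left (-P.ord (algebraMap F L ((f i).coeff α))) 0
      omega)
  have h2 := h1.resolve_left hi
  rw [← h]
  show -P.ord (aeval u (f i)) ≤ e * -pord P u + κ
  linarith

end Pool.Agent.Q271.RC
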