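import Pool.Agent.Q271.RC.FHgt
import Pool.Agent.Q72.NA.Lin

/-!
# The height inequality for pairs over function fields

The proof of `pairF` is that of `MP_4dacf8_ag.TorusCoverPairs` (helper72).
-/

set_option autoImplicit false

namespace Pool.Agent.Q271.RC

open MvPolynomial FF Pool.Agent.W603.LV Pool.Agent.W603.PV Pool.Agent.W602.GT Pool.Agent.Q72.NA

theorem pairF {N n d : ℕ} (F : Type) [Field F] [Algebra ℂ F] [IsFF ℂ F] (S₀ : Finset (Place ℂ F))
    (K : Type) [Field K] [Algebra ℂ K] [Algebra F K] [IsScalarTower ℂ F K] (a : Fin (N + 1) → K)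
    (f : Fin (n + 1) → MvPolynomial (Fin (N + 1)) F) (e : ℕ) (hX : IsPairF F S₀ d a f e) :
    ∃ (G : MvPolynomial (Fin (N + 1)) F) (E A C : ℕ), G.IsHomogeneous E ∧ aeval a G ≠ 0 ∧
      ∀ (L : Type) [Field L] [Algebra ℂ L] [Algebra F L] [IsScalarTower ℂ F L] [Module.Finite F L]
        (u : Fin (N + 1) → L), PtF (F := F) a u → aeval u G ≠ 0 → (∀ i, aeval u (f i) ≠ 0) ∧
        ∀ T : Finset (Place ℂ L),
          (∀ P : Place ℂ L, P ∉ T → ∀ i, P.ord (aeval u (f i)) = P.ord (aeval u (f 0))) →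
          pht ℂ u ≤ A * (canDeg ℂ L + T.card) + C * Module.finrank F L := by
  obtain ⟨⟨ha, hK⟩, hf, hf0, halg, hlgt⟩ := hX
  classical
  -- functions on the base
  obtain ⟨t, ht⟩ := IsFF.exists_transcendental (k := ℂ) (K := F)
  have huf : ∀ v : Place ℂ F, ∃ c : F, v.ord c = 1 := fun v => ⟨unif v, ord_unif v⟩
  choose uf huf using huf
  let T0 : Finset F := insert t (S₀.image uf)
  have hT0 : ∀ c ∈ T0, c ≠ 0 := by
    intro c hc
    rcases Finset.mem_insert.1 hc with rfl | hc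
    · rintro rfl
      exact ht isAlgebraic_zero
    · obtain ⟨v, -, rfl⟩ := Finset.mem_image.1 hc
      intro h0
      have := huf v
      rw [h0, v.ord_zero] at this
      exact zero_ne_one this
  have hT0t : t ∈ T0 := Finset.mem_insert_self _ _
  have hT0v : ∀ v ∈ S₀, uf v ∈ T0 := fun v hv =>
    Finset.mem_insert_of_mem (Finset.mem_image_of_mem _ hv)
  -- the units
  let ι : Type := Fin (n + 1) ⊕ T0
  obtain ⟨eqv⟩ : Nonempty (Fin (Fintype.card ι) ≃ ι) := ⟨(Fintype.equivFin ι).symm⟩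
  let x : ι → Kˣ := Sum.elim
    (fun i => Units.mk0 (aeval a (f i) / aeval a (f 0)) (div_ne_zero (hf0 i) (hf0 0)))
    (fun c => Units.mk0 (algebraMap F K c) ((map_ne_zero _).2 (hT0 c c.2)))
  have hxl : ∀ i, (x (Sum.inl i) : K) = aeval a (f i) / aeval a (f 0) := fun i => rfl
  have hxr : ∀ c : T0, (x (Sum.inr c) : K) = algebraMap F K c := fun i => rfl
  let Pn : ι → MvPolynomial (Fin (N + 1)) F := Sum.elim f fun c => C (c : F)
  let Qn : ι → MvPolynomial (Fin (N + 1)) F := Sum.elim (fun _ => f 0) fun _ => 1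
  let dg : ι → ℕ := Sum.elim (fun _ => e) fun _ => 0
  have hPn : ∀ i, (Pn i).IsHomogeneous (dg i) := by
    rintro (i | c)
    · exact hf i
    · exact isHomogeneous_C _ _
  have hQn : ∀ i, (Qn i).IsHomogeneous (dg i) := by
    rintro (i | c)
    · exact hf 0
    · exact isHomogeneous_one _ _
  have hQn0 : ∀ i, aeval a (Qn i) ≠ 0 := by
    rintro (i | c)
    · exact hf0 0
    · show aeval a (1 : MvPolynomial (Fin (N + 1)) F) ≠ 0
      rw [map_one]
      exact one_ne_zero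
  have hxPQ : ∀ i, (x i : K) * aeval a (Qn i) = aeval a (Pn i) := by
    rintro (i | c)
    · rw [hxl]
      exact div_mul_cancel₀ _ (hf0 0)
    · rw [hxr]
      show algebraMap F K c * aeval a (1 : MvPolynomial (Fin (N + 1)) F) = aeval a (C (c : F))
      rw [map_one, mul_one, aeval_C]
  have halg' : ∀ z : K, IsAlgebraic (IntermediateField.adjoin ℂ
      (Set.range fun i => (x (eqv i) : K))) z := by
    have hmem : ∀ i : ι, (x i : K) ∈ IntermediateField.adjoin ℂ
        (Set.range fun i => (x (eqv i) : K)) := fun i =>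
      IntermediateField.subset_adjoin _ _ ⟨eqv.symm i, by
        show (x (eqv (eqv.symm i)) : K) = x i
        rw [Equiv.apply_symm_apply]⟩
    exact alg_fam (fun i => aeval a (f i) / aeval a (f 0)) (fun z => halg.isAlgebraic z) _
      (fun i => hmem (Sum.inl i)) t ht (hmem (Sum.inr ⟨t, hT0t⟩))
  have hlgt' : LogGeneralType ℂ K d (fun P => ∃ i, P.ord (x (eqv i) : K) ≠ 0) := by
    refine lgt_mono ?_ hlgt
    rintro P (⟨i, hi⟩ | ⟨v, hv, hP⟩)
    · refine ⟨eqv.symm (Sum.inl i), ?_⟩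
      rw [Equiv.apply_symm_apply, hxl, P.ord_div (hf0 i) (hf0 0), sub_ne_zero]
      exact hi
    · refine ⟨eqv.symm (Sum.inr ⟨uf v, hT0v v hv⟩), ?_⟩
      rw [Equiv.apply_symm_apply, hxr]
      refine (hP (uf v) ?_).ne'
      rw [huf]
      exact one_pos
  have hess : Algebra.EssFiniteType ℂ K := by
    have h1 : Algebra.EssFiniteType F K := ess_of_adjoin hK
    have h2 : Algebra.EssFiniteType ℂ F := IsFF.ess
    exact Algebra.EssFiniteType.comp ℂ F K
  obtain ⟨G, E, A, hG, hGa, hmain⟩ := coreF (n := Fintype.card ι) F K a ha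
    (fun g => ratF_of_adjoin hK g) (fun i => x (eqv i)) (fun i => Pn (eqv i)) (fun i => Qn (eqv i))
    (fun i => dg (eqv i)) (fun i => hPn _) (fun i => hQn _) (fun i => hQn0 _) (fun i => hxPQ _)
    halg' hlgt'
  have hA0 : (0 : ℤ) ≤ A := Int.natCast_nonneg _
  obtain ⟨H0, hH0⟩ : ∃ H0 : ℕ, (H0 : ℤ) = ∑ c ∈ T0, 2 * hgt ℂ c := by
    have h1 : (0 : ℤ) ≤ ∑ c ∈ T0, 2 * hgt ℂ c :=
      Finset.sum_nonneg fun c _ => mul_nonneg zero_le_two (hgt_nonneg _)
    exact ⟨(∑ c ∈ T0, 2 * hgt ℂ c).toNat, Int.toNat_of_nonneg h1⟩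
  refine ⟨G, E, 3 * A, A * (3 * H0 + 6), hG, hGa, ?_⟩
  intro L _ _ _ _ _ u hu hGu
  have hL : IsFF ℂ L := isFF_of_finite (k := ℂ) (F := F)
  obtain ⟨hne, hbound⟩ := hmain L u hu hGu
  refine ⟨fun i => ?_, fun T hT => ?_⟩
  · have h1 := (hne (eqv.symm (Sum.inl i))).1
    simp only [Equiv.apply_symm_apply] at h1
    exact h1
  let T1 : Finset (Place ℂ L) :=
    T0.biUnion fun c => (finite_support (k := ℂ) (algebraMap F L c)).toFinset
  have hT1 : ∀ c ∈ T0, ∀ z : Place ℂ L, z ∉ T1 → z.ord (algebraMap F L c) = 0 := by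
    intro c hc z hz
    by_contra hcon
    exact hz (Finset.mem_biUnion.2 ⟨c, hc, by simpa using hcon⟩)
  have hT1c : (T1.card : ℤ) ≤ H0 * Module.finrank F L := by
    have h1 : (T1.card : ℤ) ≤
        ∑ c ∈ T0, ((finite_support (k := ℂ) (algebraMap F L c)).toFinset.card : ℤ) := by
      exact_mod_cast Finset.card_biUnion_le
    refine h1.trans ?_
    rw [hH0, Finset.sum_mul]
    refine Finset.sum_le_sum fun c _ => ?_
    refine (card_supp (algebraMap F L c) _ fun z hz => by simpa using hz).trans (le_of_eq ?_)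
    rw [hgt_algebraMap c]
    ring
  have h1 := hbound (T ∪ T1) (fun z hz i => by
    rw [Finset.notMem_union] at hz
    obtain ⟨j, hj⟩ : ∃ j, eqv i = j := ⟨_, rfl⟩
    simp only [hj]
    rcases j with j | c
    · exact hT z hz.1 j
    · show z.ord (aeval u (C (c : F))) = z.ord (aeval u (1 : MvPolynomial (Fin (N + 1)) F))
      rw [aeval_C, map_one, z.ord_one]
      exact hT1 c c.2 z hz.2)
  refine h1.trans ?_
  have hcan : -2 ≤ canDeg ℂ L := by
    by_cases hc : canDeg ℂ L < 0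
    · rw [canDeg_of_neg hc]
    · omega
  have hfr : (1 : ℤ) ≤ Module.finrank F L := by
    exact_mod_cast (Module.finrank_pos : 0 < Module.finrank F L)
  have hc1 : ((T ∪ T1).card : ℤ) ≤ T.card + T1.card := by
    exact_mod_cast Finset.card_union_le T T1
  have h2 : max (2 * canDeg ℂ L + 3 * ((T ∪ T1).card : ℤ)) 0 ≤
      3 * (canDeg ℂ L + T.card) + (3 * H0 + 6) * Module.finrank F L := by
    have h3 : (0 : ℤ) ≤ H0 * Module.finrank F L :=
      mul_nonneg (Int.natCast_nonneg _) (Int.natCast_nonneg _)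
    have h4 : (0 : ℤ) ≤ T.card := Int.natCast_nonneg _
    refine max_le ?_ ?_ <;> nlinarith
  calc (A : ℤ) * max (2 * canDeg ℂ L + 3 * ((T ∪ T1).card : ℤ)) 0
      ≤ A * (3 * (canDeg ℂ L + T.card) + (3 * H0 + 6) * Module.finrank F L) :=
        mul_le_mul_of_nonneg_left h2 hA0
    _ = ((3 * A : ℕ) : ℤ) * (canDeg ℂ L + T.card) +
        ((A * (3 * H0 + 6) : ℕ) : ℤ) * Module.finrank F L := by
        push_cast
        ring

end Pool.Agent.Q271.RC
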