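import Pool.Agent.Q271.RC.OK
import Pool.Agent.Y174.Multi

/-!
Covers which are ramified to high order over the boundary are of general type.
-/

set_option autoImplicit false

namespace Pool.Agent.Q271.RC

open FF MvPolynomial Pool.Agent.W603.LV Pool.Agent.W602.GT Pool.Agent.W619.Y Pool.Agent.W619.TW

variable {K : Type} [Field K] [Algebra ℂ K] {d : ℕ}

theorem ge_of_dom {K' : Type} [Field K'] [Algebra ℂ K'] {P : Place ℂ K'} {f : K'}
    (h : Dom P {(1 : K')} 0 f) : Ge P 0 f := by
  rcases h with h | ⟨s, hs, h0, h⟩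
  · exact Or.inl h
  · right
    rw [Finset.mem_singleton] at hs
    subst hs
    rw [P.ord_one] at h
    simpa using h

theorem dom_of_ge {K' : Type} [Field K'] [Algebra ℂ K'] {P : Place ℂ K'} {f : K'}
    (h : Ge P 0 f) : Dom P {(1 : K')} 0 f := by
  rcases h with h | h
  · exact Or.inl h
  · refine Or.inr ⟨1, Finset.mem_singleton_self _, one_ne_zero, ?_⟩
    rw [P.ord_one]
    simpa using h

/-- the matrix of a linear substitution -/
theorem dt_subst {K' : Type} [Field K'] [Algebra ℂ K'] (y : Fin d → K')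
    (A : Matrix (Fin d) (Fin d) K') (D : Fin d → Derivation ℂ K' K') :
    dt y (fun i => ∑ j, A i j • D j) = A.det * dt y D := by
  unfold dt
  rw [← Matrix.det_mul]
  congr 1
  ext i l
  rw [Matrix.of_apply, Matrix.mul_apply]
  rw [← Derivation.coeFnAddMonoidHom_apply, map_sum, Finset.sum_apply]
  rfl

theorem pluri_dt {K' : Type} [Field K'] [Algebra ℂ K'] (y : Fin d → K') (W : ℕ) (c : K') :
    IsPluri W (fun D => dt y D ^ W * c) := by
  intro A D
  show dt y (fun i => ∑ j, A i j • D j) ^ W * c = A.det ^ W * (dt y D ^ W * c)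
  rw [dt_subst, mul_pow]
  ring

/-- multiples of regular vector fields are logarithmic -/
theorem log_of_reg {K' : Type} [Field K'] [Algebra ℂ K'] {P : Place ℂ K'} {π : K'}
    (hπ : P.ord π = 1) {D : Derivation ℂ K' K'} (hD : DerReg P D) : DerLog P (π • D) := by
  have hπ0 : π ≠ 0 := by
    rintro rfl
    rw [P.ord_zero] at hπ
    exact zero_ne_one hπ
  have key : ∀ f : K', f ≠ 0 → 0 ≤ P.ord f → Ge P 0 (π * (D f / f)) := by
    intro f hf hn
    obtain ⟨n, hn'⟩ := Int.eq_ofNat_of_zero_le hn
    -- `f = π ^ n * u`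
    set u : K' := f / π ^ n with hu
    have hu0 : u ≠ 0 := div_ne_zero hf (pow_ne_zero _ hπ0)
    have hfu : f = π ^ n * u := by
      rw [hu]
      field_simp
    have hou : P.ord u = 0 := by
      rw [hu, P.ord_div hf (pow_ne_zero _ hπ0), P.ord_pow, hπ, hn']
      simp
    have hDu : Ge P 0 (D u) := hD u (Or.inr hou.ge)
    have hDπ : Ge P 0 (D π) := hD π (Or.inr (by rw [hπ]; exact zero_le_one))
    have e : π * (D f / f) = n * D π + π * D u * u⁻¹ := by
      rw [hfu, Derivation.leibniz, Derivation.leibniz_pow]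
      simp only [smul_eq_mul, nsmul_eq_mul]
      rcases Nat.eq_zero_or_pos n with h0 | h0
      · subst h0
        simp
        field_simp
      · have e2 : π ^ n = π * π ^ (n - 1) := by
          rw [← pow_succ']
          congr 1
          omega
        rw [e2]
        field_simp
        ring
    rw [e]
    refine (Ge.mul (N := 0) (M := 0) (Ge.natCast n) hDπ).add ?_
    have h1 : Ge P 0 (u⁻¹) := Or.inr (by rw [P.ord_inv, hou, neg_zero])
    have h2 : Ge P 0 π := Or.inr (by rw [hπ]; exact zero_le_one)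
    have h3 := (h2.mul hDu).mul h1
    simpa using h3
  intro f
  show Ge P 0 ((π • D) f / f)
  have e : (π • D) f / f = π * (D f / f) := by
    rw [Derivation.smul_apply, smul_eq_mul, mul_div_assoc]
  rw [e]
  by_cases hf : f = 0
  · left
    rw [hf]
    simp
  rcases le_total 0 (P.ord f) with h | h
  · exact key f hf h
  · have h1 := key f⁻¹ (inv_ne_zero hf) (by rw [P.ord_inv]; omega)
    have e2 : π * (D f⁻¹ / f⁻¹) = -(π * (D f / f)) := by
      rw [Derivation.leibniz_inv, smul_eq_mul]
      field_simp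
    rw [e2] at h1
    have h2 := h1.neg
    rwa [neg_neg] at h2

/-- passing from logarithmic to regular vector fields -/
theorem dt_smul {K' : Type} [Field K'] [Algebra ℂ K'] (y : Fin d → K') (π : K')
    (D : Fin d → Derivation ℂ K' K') : dt y (fun i => π • D i) = π ^ d * dt y D := by
  have h1 := dt_subst y (Matrix.diagonal fun _ : Fin d => π) D
  rw [Matrix.det_diagonal, Finset.prod_const, Finset.card_univ, Fintype.card_fin] at h1
  rw [← h1]
  congr 1
  funext i
  rw [Finset.sum_eq_single i]
  · rw [Matrix.diagonal_apply_eq]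
  · intro j _ hj
    rw [Matrix.diagonal_apply_ne _ (Ne.symm hj), zero_smul]
  · intro h
    exact absurd (Finset.mem_univ i) h

/-- **Covers which are ramified to high order over the boundary are of general type.** -/
theorem gt_cover {n : ℕ} (K : Type) [Field K] [Algebra ℂ K] [Algebra.EssFiniteType ℂ K]
    (x : Fin n → K) (hx0 : ∀ i, x i ≠ 0)
    (hlgt : LogGeneralType ℂ K d (fun P => ∃ i, P.ord (x i : K) ≠ 0)) :
    ∃ m0 : ℕ, ∀ (K' : Type) [Field K'] [Algebra ℂ K'] [Algebra K K'] [IsScalarTower ℂ K K']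
      [FiniteDimensional K K'],
      (∀ P : Place ℂ K', Divisorial d P → (∀ i, P.ord (algebraMap K K' (x i)) = 0) ∨
        (m0 : ℤ) ≤ ∑ i, |P.ord (algebraMap K K' (x i))|) → GeneralType ℂ K' d := by
  classical
  set Bd : Place ℂ K → Prop := fun P => ∃ i, P.ord (x i : K) ≠ 0 with hBd
  obtain ⟨htr, N, hN, ω, hω1, hω2, hω3, D, hD, hind⟩ := hlgt
  obtain ⟨y, hy⟩ := Pool.Agent.W636.PG.exists_basis ℂ K d htr
  obtain ⟨E, hE⟩ := Pool.Agent.W636.PG.exists_duals ℂ K d y hy
  have hval : ∀ (l : Fin (d + 1)) D', ω l D' = dt y D' ^ N * ω l E := fun l D' =>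
    Pool.Agent.W636.PG.form_eq ℂ K d N y hy E hE (ω l) (hω1 l) D'
  set c : Fin (d + 1) → K := fun l => ω l E with hc
  have hdt0 : dt y D ^ N ≠ 0 := by
    intro h0
    apply hD
    rw [hval, h0, zero_mul]
  have hc0 : c 0 ≠ 0 := by
    intro h0
    apply hD
    rw [hval]
    show dt y D ^ N * c 0 = 0
    rw [h0, mul_zero]
  have hcOK : ∀ j, OK Bd y N (c j) := by
    intro j P hP D' hD'
    have e : dt y D' ^ N * c j = ω j D' := (hval j D').symm
    rw [e]
    rcases hD' with ⟨h1, h2⟩ | ⟨h1, h2⟩
    · exact hω3 P hP h1 j D' h2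
    · exact hω2 P hP j D' h2
  have hratio : (fun i : Fin d => ω i.succ D / ω 0 D) = fun i : Fin d => c i.succ / c 0 := by
    funext i
    rw [hval i.succ, hval 0, mul_div_mul_left _ _ hdt0]
  rw [hratio] at hind
  -- the ratios are a transcendence basis
  have hbasis : IsTranscendenceBasis ℂ (fun i : Fin d => c i.succ / c 0) := by
    refine hind.isTranscendenceBasis_of_lift_trdeg_le_of_finite ?_
    rw [htr]
    simp
  have halg : ∀ z : K, IsAlgebraic (IntermediateField.adjoin ℂ
      (Set.range fun i : Fin d => c i.succ / c 0)) z := fun z =>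
    hbasis.isAlgebraic_field.isAlgebraic z
  choose W s hs0 hs1 hs2 hs3 using fun i : Fin n => OK.exists_mul_inv hc0 hcOK halg (x i)
  let Wt : ℕ := N + ∑ i, W i
  refine ⟨d * Wt, ?_⟩
  intro K' _ _ _ _ _ hram
  have hpull : ∀ (w : ℕ) (e : K), OK Bd y w e → IsSec ℂ K' d (BdUp Bd) {(1 : K')} w 0
      (fun D => dt (fun b => algebraMap K K' (y b)) D ^ w * algebraMap K K' e) := by
    intro w e he
    have h1 := Pool.Agent.Y174.pPULL ℂ K K' d htr
      (fun y hy => Pool.Agent.W824.PG.fin_adj inferInstance y hy) Bd {1} w 0 y E hy hE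
      (fun D => dt y D ^ w * e) ⟨pluri_dt y w e, ?_, ?_⟩
    · have hdet : dt y E = 1 := by
        unfold dt
        have h2 : (Matrix.of fun i j => E i (y j)) = 1 := by
          ext a b
          rw [Matrix.of_apply, Matrix.one_apply]
          exact hE a b
        rw [h2, Matrix.det_one]
      rw [hdet, one_pow, one_mul, Finset.image_singleton, map_one] at h1
      exact h1
    · intro v hv hb D' hD'
      exact dom_of_ge (he v hv D' (Or.inl ⟨hb, hD'⟩))
    · intro v hv hb D' hD'
      exact dom_of_ge (he v hv D' (Or.inr ⟨hb, hD'⟩))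
  let y' : Fin d → K' := fun b => algebraMap K K' (y b)
  have hy' : IsTranscendenceBasis ℂ y' := hy.algebraMap_comp
  obtain ⟨E', hE'⟩ := Pool.Agent.W636.PG.exists_duals ℂ K' d y' hy'
  have hdet' : dt y' E' = 1 := by
    unfold dt
    have h2 : (Matrix.of fun i j => E' i (y' j)) = 1 := by
      ext a b
      rw [Matrix.of_apply, Matrix.one_apply]
      exact hE' a b
    rw [h2, Matrix.det_one]
  let σ : K := ∏ i, s i
  have hσ : σ ≠ 0 := Finset.prod_ne_zero_iff.2 fun i _ => hs0 i
  have htr' : Algebra.trdeg ℂ K' = d := by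
    have h1 := hy'.cardinalMk_eq_trdeg
    rw [← h1]
    simp
  -- split of the forms
  have hsplit : ∀ (D' : Fin d → Derivation ℂ K' K') (j : Fin (d + 1)),
      dt y' D' ^ Wt * algebraMap K K' (c j * σ) =
        (dt y' D' ^ N * algebraMap K K' (c j)) *
          ∏ i, (dt y' D' ^ W i * algebraMap K K' (s i)) := by
    intro D' j
    rw [Finset.prod_mul_distrib, Finset.prod_pow_eq_pow_sum, pow_add, map_mul, map_prod]
    ring
  refine ⟨htr', Wt, by omega, fun j D' => dt y' D' ^ Wt * algebraMap K K' (c j * σ),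
    fun j => pluri_dt y' Wt _, ?_, E', ?_, ?_⟩
  · intro P hP j D' hD'
    show Ge P 0 (dt y' D' ^ Wt * algebraMap K K' (c j * σ))
    by_cases hb : BdUp Bd P
    · -- the boundary
      have hm : ((d * Wt : ℕ) : ℤ) ≤ ∑ i, |P.ord (algebraMap K K' (x i))| := by
        rcases hram P hP with h0 | h0
        · exfalso
          obtain ⟨v, e, hov, i, hi⟩ := hb
          have h2 := h0 i
          rw [hov.2] at h2
          rcases mul_eq_zero.1 h2 with h3 | h3
          · have := hov.1
            omega
          · exact hi h3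
        · exact h0
      obtain ⟨π, hπ0, hπ⟩ := P.surj
      -- logarithmic vector fields
      have hlog : ∀ D'' : Fin d → Derivation ℂ K' K', (∀ i, DerLog P (D'' i)) →
          Ge P ((d * Wt : ℕ) : ℤ) (dt y' D'' ^ Wt * algebraMap K K' (c j * σ)) := by
        intro D'' hD''
        rw [hsplit]
        have h1 : Ge P 0 (dt y' D'' ^ N * algebraMap K K' (c j)) :=
          ge_of_dom ((hpull N (c j) (hcOK j)).2.2 P hP hb D'' hD'')
        have h2 : ∀ i, Ge P |P.ord (algebraMap K K' (x i))|
            (dt y' D'' ^ W i * algebraMap K K' (s i)) := by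
          intro i
          have hxi : algebraMap K K' (x i) ≠ 0 := (map_ne_zero _).2 (hx0 i)
          have h3 : Ge P 0 (dt y' D'' ^ W i * algebraMap K K' (s i * x i)) :=
            ge_of_dom ((hpull (W i) _ (hs2 i)).2.2 P hP hb D'' hD'')
          have h4 : Ge P 0 (dt y' D'' ^ W i * algebraMap K K' (s i * (x i)⁻¹)) :=
            ge_of_dom ((hpull (W i) _ (hs3 i)).2.2 P hP hb D'' hD'')
          rw [map_mul, ← mul_assoc, mul_comm] at h3
          rw [map_mul, map_inv₀, ← mul_assoc, mul_comm] at h4
          have h5 := Ge.of_mul hxi h3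
          have h6 := Ge.of_mul (inv_ne_zero hxi) h4
          rw [P.ord_inv] at h6
          rcases abs_cases (P.ord (algebraMap K K' (x i))) with ⟨h7, -⟩ | ⟨h7, -⟩
          · rw [h7]
            exact h6.mono (by omega)
          · rw [h7]
            exact h5.mono (by omega)
        have h3 := Ge.prod (P := P) Finset.univ
          (fun i => dt y' D'' ^ W i * algebraMap K K' (s i))
          (fun i => |P.ord (algebraMap K K' (x i))|) (fun i _ => h2 i)
        exact (h1.mul h3).mono (by rw [zero_add]; exact hm)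
      have h1 := hlog (fun i => π • D' i) (fun i => log_of_reg hπ (hD' i))
      rw [dt_smul, mul_pow, mul_assoc] at h1
      have hπw : (π ^ d) ^ Wt ≠ 0 := pow_ne_zero _ (pow_ne_zero _ hπ0)
      have h2 := Ge.of_mul hπw h1
      refine h2.mono ?_
      rw [P.ord_pow, P.ord_pow, hπ]
      push_cast
      ring_nf
      exact le_rfl
    · rw [hsplit]
      have h1 : Ge P 0 (dt y' D' ^ N * algebraMap K K' (c j)) :=
        ge_of_dom ((hpull N (c j) (hcOK j)).2.1 P hP hb D' hD')
      have h2 : ∀ i, Ge P 0 (dt y' D' ^ W i * algebraMap K K' (s i)) := fun i =>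
        ge_of_dom ((hpull (W i) _ (hs1 i)).2.1 P hP hb D' hD')
      have h3 := Ge.prod (P := P) Finset.univ
        (fun i => dt y' D' ^ W i * algebraMap K K' (s i)) (fun i => 0) (fun i _ => h2 i)
      rw [Finset.sum_const_zero] at h3
      have h4 := h1.mul h3
      rwa [add_zero] at h4
  · change dt y' E' ^ Wt * algebraMap K K' (c 0 * σ) ≠ 0
    rw [hdet', one_pow, one_mul]
    exact (map_ne_zero _).2 (mul_ne_zero hc0 hσ)
  · have h1 : (fun l : Fin d => dt y' E' ^ Wt * algebraMap K K' (c l.succ * σ) /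
        (dt y' E' ^ Wt * algebraMap K K' (c 0 * σ))) = fun l : Fin d =>
          IsScalarTower.toAlgHom ℂ K K' (c l.succ / c 0) := by
      funext l
      rw [hdet', one_pow, one_mul, one_mul]
      change _ = algebraMap K K' _
      rw [← map_div₀, mul_div_mul_right _ _ hσ]
    rw [h1]
    exact (AlgHom.algebraicIndependent_iff (IsScalarTower.toAlgHom ℂ K K')
      (algebraMap K K').injective).2 hind

end Pool.Agent.Q271.RC
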