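import Pool.Agent.Q271.RC.Contact

/-!
Maps from the punctured line to curves with nonnegative Euler characteristic, with the points.
-/

set_option autoImplicit false

namespace Pool.Agent.Q271.RC

open FF MvPolynomial Pool.Agent.W603.LV Pool.Agent.W603.PV Pool.Agent.W602.GT
  Pool.Agent.W619.PQ Pool.Agent.Q72.NA
open scoped IntermediateField

/-- a function with one pole, at a given place -/
theorem one_pole {M : Type} [Field M] [Algebra ℂ M] [IsFF ℂ M] {t : M} (ht : ℂ⟮t⟯ = ⊤)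
    (z0 : Place ℂ M) (h0 : Ge z0 0 t) :
    ∃ f : M, z0.ord f < 0 ∧ ∀ w : Place ℂ M, w.ord f < 0 → w = z0 := by
  classical
  have htr : Transcendental ℂ t := transcendental_of_top ht
  obtain ⟨c, hc⟩ := Pool.Agent.W603.LV.exists_const z0 h0
  have hne : t - algebraMap ℂ M c ≠ 0 := by
    intro h
    have h2 : t = algebraMap ℂ M c := sub_eq_zero.1 h
    exact htr (h2 ▸ isAlgebraic_algebraMap c)
  have hpos : 1 ≤ z0.ord (t - algebraMap ℂ M c) := hc.resolve_left hne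
  have htop : ℂ⟮t - algebraMap ℂ M c⟯ = ⊤ := by
    rw [eq_top_iff, ← ht, IntermediateField.adjoin_le_iff, Set.singleton_subset_iff]
    have h1 : (t - algebraMap ℂ M c) + algebraMap ℂ M c ∈ ℂ⟮t - algebraMap ℂ M c⟯ :=
      add_mem (IntermediateField.mem_adjoin_simple_self _ _) (algebraMap_mem _ c)
    rw [sub_add_cancel] at h1
    exact h1
  have htr2 : Transcendental ℂ (t - algebraMap ℂ M c) := transcendental_of_top htop
  have hh : hgt ℂ (t - algebraMap ℂ M c)⁻¹ = 1 := by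
    rw [hgt_inv, hgt_eq_finrank htr2, htop, IntermediateField.finrank_top]
    rfl
  refine ⟨(t - algebraMap ℂ M c)⁻¹, by rw [z0.ord_inv]; omega, fun w hw => ?_⟩
  by_contra hne2
  obtain ⟨T, hT1, hT2⟩ : ∃ T : Finset (Place ℂ M), ({w, z0} : Finset (Place ℂ M)) ⊆ T ∧
      ∀ z, z.ord (t - algebraMap ℂ M c)⁻¹ ≠ 0 → z ∈ T := by
    refine ⟨{w, z0} ∪ (finite_support (k := ℂ) (t - algebraMap ℂ M c)⁻¹).toFinset,
      Finset.subset_union_left, fun z hz => ?_⟩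
    rw [Finset.mem_union]
    right
    simpa using hz
  rw [hgt_finset _ T hT2] at hh
  have h3 := Finset.sum_le_sum_of_subset_of_nonneg
    (f := fun P : Place ℂ M => max (-P.ord (t - algebraMap ℂ M c)⁻¹) 0) hT1
    (fun _ _ _ => le_max_right _ _)
  rw [hh, Finset.sum_pair hne2] at h3
  have h4 : 1 ≤ -w.ord (t - algebraMap ℂ M c)⁻¹ := by omega
  have h5 : 1 ≤ -z0.ord (t - algebraMap ℂ M c)⁻¹ := by
    rw [z0.ord_inv]
    omega
  have h6 := le_max_left (-w.ord (t - algebraMap ℂ M c)⁻¹) 0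
  have h7 := le_max_left (-z0.ord (t - algebraMap ℂ M c)⁻¹) 0
  omega

theorem exists_gm2 {M : Type} [Field M] [Algebra ℂ M] [IsFF ℂ M] (S : Finset (Place ℂ M))
    (hS : S.Nonempty) (h : canDeg ℂ M + S.card ≤ 0) (m : ℕ) (hm : 0 < m) :
    ∃ σ : M →ₐ[ℂ] RatFunc ℂ,
      (∀ z : Place ℂ (RatFunc ℂ), z ∉ zeroInf → ∃ z0 : Place ℂ M, z0 ∉ S ∧ ∃ e : ℕ, 0 < e ∧
        ∀ f : M, z.ord (σ f) = e * z0.ord f) ∧
      ∀ f : M, Transcendental ℂ f → (m : ℤ) ≤ hgt ℂ (σ f) := by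
  obtain ⟨t, ht, hlau⟩ := Pool.Agent.TH143.LG.laurent hS h
  have htr : Transcendental ℂ t := transcendental_of_top ht
  obtain ⟨Y, hY⟩ : ∃ Y : RatFunc ℂ, Y = RatFunc.X ^ m := ⟨_, rfl⟩
  have hX0 : (RatFunc.X : RatFunc ℂ) ≠ 0 := RatFunc.X_ne_zero
  have hYtr : Transcendental ℂ Y := by
    rw [hY]
    exact RatFunc.transcendental_X.pow hm
  obtain ⟨e1, he1⟩ : ∃ e1 : RatFunc ℂ ≃ₐ[ℂ] ℂ⟮t⟯, ((e1 RatFunc.X : ℂ⟮t⟯) : M) = t :=
    ⟨RatFunc.algEquivOfTranscendental t htr, by simp⟩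
  obtain ⟨e2, he2⟩ : ∃ e2 : RatFunc ℂ ≃ₐ[ℂ] ℂ⟮Y⟯, ((e2 RatFunc.X : ℂ⟮Y⟯) : RatFunc ℂ) = Y :=
    ⟨RatFunc.algEquivOfTranscendental Y hYtr, by simp⟩
  let e3 : M ≃ₐ[ℂ] ℂ⟮t⟯ :=
    (IntermediateField.topEquiv.symm).trans (IntermediateField.equivOfEq ht.symm)
  have he3 : ∀ x : M, ((e3 x : ℂ⟮t⟯) : M) = x := fun x => rfl
  let σ : M →ₐ[ℂ] RatFunc ℂ :=
    (ℂ⟮Y⟯.val.comp (e2 : RatFunc ℂ →ₐ[ℂ] ℂ⟮Y⟯)).comp
      ((e1.symm : ℂ⟮t⟯ →ₐ[ℂ] RatFunc ℂ).comp (e3 : M →ₐ[ℂ] ℂ⟮t⟯))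
  have hσ : ∀ x, σ x = ((e2 (e1.symm (e3 x)) : ℂ⟮Y⟯) : RatFunc ℂ) := fun x => rfl
  have hσt : σ t = Y := by
    have h1 : e3 t = e1 RatFunc.X := Subtype.ext (by rw [he3, he1])
    rw [hσ, h1, AlgEquiv.symm_apply_apply, he2]
  have hσm : ∀ x, σ x ∈ ℂ⟮Y⟯ := fun x => by
    rw [hσ]
    exact Subtype.property _
  refine ⟨σ, fun z hz => ?_, fun f hf => ?_⟩
  · have hzX := not_mem_zeroInf hz
    have hzY : z.ord Y = 0 := by rw [hY, z.ord_pow, hzX, mul_zero]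
    obtain ⟨c, hc⟩ := Pool.Agent.W603.LV.exists_const z (f := Y) (Or.inr hzY.ge)
    have hne : Y - algebraMap ℂ (RatFunc ℂ) c ≠ 0 := by
      intro h
      have h2 : Y = algebraMap ℂ (RatFunc ℂ) c := sub_eq_zero.1 h
      exact hYtr (h2 ▸ isAlgebraic_algebraMap c)
    have hpos : 1 ≤ z.ord (Y - algebraMap ℂ (RatFunc ℂ) c) := hc.resolve_left hne
    let alg : Algebra M (RatFunc ℂ) := σ.toRingHom.toAlgebra
    have tow : IsScalarTower ℂ M (RatFunc ℂ) := IsScalarTower.of_algebraMap_eq fun c =>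
      (σ.commutes c).symm
    have hmap : ∀ f : M, algebraMap M (RatFunc ℂ) f = σ f := fun _ => rfl
    obtain ⟨e, z0, he, hov⟩ := FF.exists_over (K := M) z ⟨t - algebraMap ℂ M c, by
      rw [hmap, map_sub, hσt, AlgHom.commutes]
      omega⟩
    refine ⟨z0, fun hz0 => ?_, e, he, hov⟩
    -- a function with a pole at `z0` only
    have ht0 : z0.ord t = 0 := by
      have h1 := hov t
      rw [hmap, hσt, hzY] at h1
      rcases mul_eq_zero.1 h1.symm with h2 | h2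
      · omega
      · exact h2
    obtain ⟨f, hf1, hf2⟩ := one_pole ht z0 (Or.inr ht0.ge)
    obtain ⟨l, p, hp⟩ := hlau f fun P hP => by
      rw [hf2 P hP]
      exact hz0
    have h2 : Ge z0 0 (Polynomial.aeval t p) :=
      Pool.Agent.TH143.LG.ge_aeval (Or.inr ht0.ge) p
    have hf0 : f ≠ 0 := by
      rintro rfl
      rw [z0.ord_zero] at hf1
      exact lt_irrefl _ hf1
    have ht00 : t ≠ 0 := by
      rintro rfl
      exact htr isAlgebraic_zero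
    rw [← hp] at h2
    have h3 := h2.resolve_left (mul_ne_zero hf0 (pow_ne_zero _ ht00))
    rw [z0.ord_mul hf0 (pow_ne_zero _ ht00), z0.ord_pow, ht0, mul_zero, add_zero] at h3
    omega
  · have hσf : Transcendental ℂ (σ f) := by
      intro halg
      exact hf ((isAlgebraic_algHom_iff σ σ.injective).1 halg)
    have hle : ℂ⟮σ f⟯ ≤ ℂ⟮Y⟯ := by
      rw [IntermediateField.adjoin_le_iff, Set.singleton_subset_iff]
      exact hσm f
    have : FiniteDimensional ℂ⟮σ f⟯ (RatFunc ℂ) := IsFF.finite hσf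
    have h1 := IntermediateField.finrank_le_of_le_left hle
    have h2 := hgt_eq_finrank (k := ℂ) hσf
    have h3 := hgt_eq_finrank (k := ℂ) hYtr
    have h4 : hgt ℂ Y = m * hgt ℂ (RatFunc.X : RatFunc ℂ) := by
      rw [hY, hgt_pow hX0]
    have h5 := hgt_eq_finrank (k := ℂ) (RatFunc.transcendental_X (K := ℂ))
    have : FiniteDimensional ℂ⟮(RatFunc.X : RatFunc ℂ)⟯ (RatFunc ℂ) :=
      IsFF.finite RatFunc.transcendental_X
    have h6 : 0 < Module.finrank ℂ⟮(RatFunc.X : RatFunc ℂ)⟯ (RatFunc ℂ) := Module.finrank_pos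
    have h7 : (m : ℤ) ≤ m * hgt ℂ (RatFunc.X : RatFunc ℂ) := by
      rw [h5]
      have h8 : (1 : ℤ) ≤ Module.finrank ℂ⟮(RatFunc.X : RatFunc ℂ)⟯ (RatFunc ℂ) := by
        exact_mod_cast h6
      nlinarith [Int.natCast_nonneg m]
    rw [h2]
    rw [← h4, h3] at h7
    refine h7.trans ?_
    exact_mod_cast h1

/-- the linear bound, from a bound with `2 (2 g - 2) + 3 |S|`, for a condition `Q` on places which
is stable under covers -/
theorem lin_gen {N : ℕ} (Pt : ∀ (M : Type) [Field M] [Algebra ℂ M], (Fin (N + 1) → M) → Prop)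
    (Q : ∀ (M : Type) [Field M] [Algebra ℂ M], (Fin (N + 1) → M) → Place ℂ M → Prop) (A : ℕ)
    (hPt : ∀ (M : Type) [Field M] [Algebra ℂ M] (u : Fin (N + 1) → M)
      (σ : M →ₐ[ℂ] RatFunc ℂ), Pt M u → Pt (RatFunc ℂ) fun i => σ (u i))
    (hQ : ∀ (M : Type) [Field M] [Algebra ℂ M] (u : Fin (N + 1) → M)
      (σ : M →ₐ[ℂ] RatFunc ℂ) (z : Place ℂ (RatFunc ℂ)) (z0 : Place ℂ M) (e : ℕ), 0 < e →
      (∀ f : M, z.ord (σ f) = e * z0.ord f) → Pt M u → Q M u z0 →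
      Q (RatFunc ℂ) (fun i => σ (u i)) z)
    (hB : ∀ (M : Type) [Field M] [Algebra ℂ M] [IsFF ℂ M] (u : Fin (N + 1) → M), Pt M u →
        ∀ S : Finset (Place ℂ M), (∀ z : Place ℂ M, z ∉ S → Q M u z) →
          pht ℂ u ≤ A * max (2 * canDeg ℂ M + 3 * S.card) 0)
    (M : Type) [Field M] [Algebra ℂ M] [IsFF ℂ M] (u : Fin (N + 1) → M)
    (hu : Pt M u) (S : Finset (Place ℂ M))
    (hS : ∀ z : Place ℂ M, z ∉ S → Q M u z)
    (hne : ∃ i j, u j ≠ 0 ∧ Transcendental ℂ (u i / u j)) :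
    pht ℂ u ≤ (5 * A : ℕ) * (canDeg ℂ M + S.card) := by
  obtain ⟨i, j, hj, hij⟩ := hne
  have h2 := hB M u hu S hS
  have hpos : 0 < pht ℂ u := by
    refine lt_of_lt_of_le ?_ (hgt_ratio_le u hj i)
    rw [hgt_eq_finrank hij]
    have : FiniteDimensional (IntermediateField.adjoin ℂ {u i / u j}) M := IsFF.finite hij
    have h3 : 0 < Module.finrank (IntermediateField.adjoin ℂ {u i / u j}) M := Module.finrank_pos
    exact_mod_cast h3
  have hcan : -2 ≤ canDeg ℂ M := by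
    by_cases hc : canDeg ℂ M < 0
    · rw [canDeg_of_neg hc]
    · omega
  by_cases hχ : 0 < canDeg ℂ M + S.card
  · refine h2.trans ?_
    push_cast
    have h3 : max (2 * canDeg ℂ M + 3 * (S.card : ℤ)) 0 ≤ 5 * (canDeg ℂ M + S.card) := by
      refine max_le ?_ ?_ <;> omega
    calc (A : ℤ) * max (2 * canDeg ℂ M + 3 * (S.card : ℤ)) 0
        ≤ A * (5 * (canDeg ℂ M + S.card)) := mul_le_mul_of_nonneg_left h3 (Int.natCast_nonneg _)
      _ = 5 * A * (canDeg ℂ M + S.card) := by ring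
  · exfalso
    rw [not_lt] at hχ
    by_cases hSe : S.Nonempty
    · obtain ⟨b, hb⟩ : ∃ b : ℤ, b = A * max (2 * canDeg ℂ (RatFunc ℂ) + 3 * (zeroInf.card : ℤ)) 0 :=
        ⟨_, rfl⟩
      obtain ⟨m, hm⟩ : ∃ m : ℕ, b < m := ⟨(b + 1).toNat, by omega⟩
      have hb0 : 0 ≤ b := by
        rw [hb]
        exact mul_nonneg (Int.natCast_nonneg _) (le_max_right _ _)
      have hm0 : 0 < m := by omega
      obtain ⟨σ, hσ1, hσ2⟩ := exists_gm2 S hSe hχ m hm0
      have h4 := hB (RatFunc ℂ) (fun i => σ (u i)) (hPt M u σ hu) zeroInf (fun z hz => by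
        obtain ⟨z0, hz0, e, he, hov⟩ := hσ1 z hz
        exact hQ M u σ z z0 e he hov hu (hS z0 hz0))
      have h7 := hgt_ratio_le (fun i => σ (u i)) (l := j) ((map_ne_zero σ).2 hj) i
      have h8 := hσ2 _ hij
      rw [map_div₀] at h8
      have h9 := (h8.trans h7).trans h4
      omega
    · rw [Finset.not_nonempty_iff_eq_empty] at hSe
      rw [hSe] at h2 hχ
      have h3 : max (2 * canDeg ℂ M + 3 * ((∅ : Finset (Place ℂ M)).card : ℤ)) 0 = 0 := by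
        rw [Finset.card_empty] at hχ ⊢
        exact max_eq_right (by push_cast at hχ ⊢; omega)
      rw [h3, mul_zero] at h2
      omega

end Pool.Agent.Q271.RC
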