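import Pool.Agent.Q271.RC.Curves
import Pool.Agent.Q271.RC.GT
import Pool.Agent.Y216.Point

/-!
# Covers which are ramified to high order: general type and hyperbolicity
-/

set_option autoImplicit false

namespace Pool.Agent.Q271.RC

open MvPolynomial FF Pool.Agent.W603.LV Pool.Agent.W603.PV Pool.Agent.Q72.NA Pool.Agent.Y216
open Pool.Agent.W602.GT (GeneralType LogGeneralType Divisorial)

theorem finiteDimensional_of {K K' : Type} [Field K] [Algebra ℂ K] [Field K'] [Algebra ℂ K']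
    [Algebra K K'] [IsScalarTower ℂ K K'] [Algebra.EssFiniteType ℂ K'] [Algebra.IsAlgebraic K K'] :
    FiniteDimensional K K' := by
  have hess : Algebra.EssFiniteType K K' := Algebra.EssFiniteType.of_comp ℂ K K'
  obtain ⟨s, hs⟩ := IntermediateField.fg_top K K'
  have h1 : FiniteDimensional K (IntermediateField.adjoin K (s : Set K')) :=
    IntermediateField.finiteDimensional_adjoin fun x _ =>
      (Algebra.IsAlgebraic.isAlgebraic x).isIntegral
  rw [hs] at h1
  exact h1.equiv IntermediateField.topEquiv.toLinearEquiv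

/-- **Ramified covers are of general type.** -/
theorem cover_gt {N n d : ℕ} {K : Type} [Field K] [Algebra ℂ K] {a : Fin (N + 1) → K}
    {f : Fin (n + 1) → MvPolynomial (Fin (N + 1)) ℂ} {e : ℕ} (hX : IsPair d a f e) :
    ∃ m0 : ℕ, ∀ m, m0 ≤ m → ∀ (N' : ℕ) (K' : Type) [Field K'] [Algebra ℂ K'] [Algebra K K']
      [IsScalarTower ℂ K K'] (b : Fin (N' + 1) → K')
      (g : Fin (N + 1) → MvPolynomial (Fin (N' + 1)) ℂ) (e' : ℕ), IsCover a b g e' →
      Ramified m b (fun i => bind₁ g (f i)) → GeneralType ℂ K' d := by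
  have : Algebra.EssFiniteType ℂ K := ess_of_adjoin hX.gen.2
  let x : Fin (n + 1) → K := fun i => aeval a (f i) / aeval a (f 0)
  have hx0 : ∀ i, x i ≠ 0 := fun i => div_ne_zero (hX.ne i) (hX.ne 0)
  have hBd : (fun P : Place ℂ K => ∃ i, P.ord (aeval a (f i)) ≠ P.ord (aeval a (f 0))) =
      fun P => ∃ i, P.ord (x i) ≠ 0 := by
    funext P
    simp only [x, P.ord_div (hX.ne _) (hX.ne 0), sub_ne_zero]
  have hlgt := hX.lgt
  rw [hBd] at hlgt
  obtain ⟨m0, hm0⟩ := gt_cover K x hx0 hlgt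
  refine ⟨m0 + 1, fun m hm N' K' _ _ _ _ b g e' hY hram => ?_⟩
  have h1 : Algebra.EssFiniteType ℂ K' := ess_of_adjoin hY.gen.2
  have h2 := hY.alg
  have h3 : FiniteDimensional K K' := finiteDimensional_of
  obtain ⟨c, hc, hgc⟩ := hY.map
  have hval : ∀ i, aeval b (bind₁ g (f i)) = c ^ e * algebraMap K K' (aeval a (f i)) := fun i =>
    gen_comp a b g c hgc (hX.hom i)
  have hfi : ∀ i, algebraMap K K' (aeval a (f i)) ≠ 0 := fun i => (map_ne_zero _).2 (hX.ne i)
  have hne : ∀ i, aeval b (bind₁ g (f i)) ≠ 0 := fun i => by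
    rw [hval]
    exact mul_ne_zero (pow_ne_zero _ hc) (hfi i)
  refine hm0 K' fun P _ => ?_
  have hord : ∀ i, P.ord (algebraMap K K' (x i)) =
      P.ord (aeval b (bind₁ g (f i))) - P.ord (aeval b (bind₁ g (f 0))) := by
    intro i
    rw [hval, hval, P.ord_mul (pow_ne_zero _ hc) (hfi i), P.ord_mul (pow_ne_zero _ hc) (hfi 0)]
    simp only [x]
    rw [map_div₀, P.ord_div (hfi i) (hfi 0)]
    ring
  rcases hram K' b (fun G D _ h => h) hne P with h | ⟨i, j, h⟩
  · left
    intro i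
    rw [hord, h i, sub_self]
  · right
    have hij : i ≠ j := by
      rintro rfl
      rw [sub_self] at h
      omega
    have h4 : |P.ord (algebraMap K K' (x i))| + |P.ord (algebraMap K K' (x j))| ≤
        ∑ i, |P.ord (algebraMap K K' (x i))| := by
      rw [← Finset.sum_pair (f := fun i => |P.ord (algebraMap K K' (x i))|) hij]
      exact Finset.sum_le_sum_of_subset_of_nonneg (Finset.subset_univ _)
        fun _ _ _ => abs_nonneg _
    have h5 := le_abs_self (P.ord (algebraMap K K' (x i)))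
    have h6 := neg_le_abs (P.ord (algebraMap K K' (x j)))
    have h8 := hord i
    have h9 := hord j
    have h10 : (m : ℤ) ≤ P.ord (aeval b (bind₁ g (f i))) - P.ord (aeval b (bind₁ g (f j))) := h
    have h7 : (m0 : ℤ) + 1 ≤ m := by exact_mod_cast hm
    omega

/-- **Ramified covers are hyperbolic modulo a closed subset.** -/
theorem cover_curves {N n d : ℕ} {K : Type} [Field K] [Algebra ℂ K] {a : Fin (N + 1) → K}
    {f : Fin (n + 1) → MvPolynomial (Fin (N + 1)) ℂ} {e : ℕ} (hX : IsPair d a f e) :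
    ∃ m0 : ℕ, ∀ m, m0 ≤ m → ∀ (N' : ℕ) (K' : Type) [Field K'] [Algebra ℂ K'] [Algebra K K']
      [IsScalarTower ℂ K K'] (b : Fin (N' + 1) → K')
      (g : Fin (N + 1) → MvPolynomial (Fin (N' + 1)) ℂ) (e' : ℕ), IsCover a b g e' →
      Ramified m b (fun i => bind₁ g (f i)) → CurveBound ℂ b := by
  obtain ⟨m0, h⟩ := cover_linear hX
  refine ⟨m0, fun m hm N' K' _ _ _ _ b g e' hY hram => ?_⟩
  obtain ⟨G, D, A, hG, hGb, hmain⟩ := h m hm N' K' b g e' hY
  refine ⟨G, ⟨D, hG⟩, hGb, 2 * A, fun L _ _ _ v hv hGv => ?_⟩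
  obtain ⟨h1, h2⟩ := hmain L v (fun H D hH hHb => hv.2 H ⟨D, hH⟩ hHb) hGv
  obtain ⟨h3, -⟩ := h2 ∅ (fun z _ => hram L v (fun H D hH hHb => hv.2 H ⟨D, hH⟩ hHb) h1 z)
  refine h3.trans ?_
  rw [Finset.card_empty, Nat.cast_zero, mul_zero, add_zero]
  have h4 : max (2 * canDeg ℂ L) 0 ≤ 2 * max (canDeg ℂ L) 0 := by
    rcases le_total (canDeg ℂ L) 0 with h | h
    · rw [max_eq_right h, max_eq_right (by omega)]
      omega
    · rw [max_eq_left h, max_eq_left (by omega)]
  calc (A : ℤ) * max (2 * canDeg ℂ L) 0 ≤ A * (2 * max (canDeg ℂ L) 0) :=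
        mul_le_mul_of_nonneg_left h4 (Int.natCast_nonneg _)
    _ = ((2 * A : ℕ) : ℤ) * max (canDeg ℂ L) 0 := by
        push_cast
        ring

end Pool.Agent.Q271.RC
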