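import Pool.Agent.Q72.NA.Core
import Pool.Agent.W603.PV.Abs
import Pool.Agent.W636.PG.Trans

/-!
Logarithmic pluricanonical forms which are divisible by a given function.
-/

set_option autoImplicit false

namespace Pool.Agent.Q271.RC

open FF MvPolynomial Pool.Agent.W603.LV Pool.Agent.W602.GT

variable {K : Type} [Field K] [Algebra ℂ K] {d : ℕ}

/-- the determinant of the values of the vector fields on the coordinates -/
noncomputable def dt (y : Fin d → K) (D : Fin d → Derivation ℂ K K) : K :=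
  (Matrix.of fun i j => D i (y j)).det

/-- vector fields which are regular outside the boundary and logarithmic at the boundary -/
def Adm (Bd : Place ℂ K → Prop) (P : Place ℂ K) (D : Fin d → Derivation ℂ K K) : Prop :=
  (¬ Bd P ∧ ∀ i, DerReg P (D i)) ∨ (Bd P ∧ ∀ i, DerLog P (D i))

/-- `c (dy) ^ W` is a logarithmic form -/
def OK (Bd : Place ℂ K → Prop) (y : Fin d → K) (W : ℕ) (c : K) : Prop :=
  ∀ P : Place ℂ K, Divisorial d P → ∀ D : Fin d → Derivation ℂ K K, Adm Bd P D →
    Ge P 0 (dt y D ^ W * c)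

namespace OK

variable {Bd : Place ℂ K → Prop} {y : Fin d → K} {W W' : ℕ} {c c' : K}

theorem mul (h : OK Bd y W c) (h' : OK Bd y W' c') : OK Bd y (W + W') (c * c') := by
  intro P hP D hD
  have h1 := (h P hP D hD).mul (h' P hP D hD)
  rw [add_zero] at h1
  have e : dt y D ^ (W + W') * (c * c') = dt y D ^ W * c * (dt y D ^ W' * c') := by
    rw [pow_add]
    ring
  rwa [e]

theorem zero : OK Bd y W 0 := by
  intro P hP D hD
  rw [mul_zero]
  exact Ge.zero

theorem add (h : OK Bd y W c) (h' : OK Bd y W c') : OK Bd y W (c + c') := by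
  intro P hP D hD
  rw [mul_add]
  exact (h P hP D hD).add (h' P hP D hD)

theorem one : OK Bd y 0 1 := by
  intro P hP D hD
  rw [pow_zero, mul_one]
  exact Ge.one

theorem smul (h : OK Bd y W c) (z : ℂ) : OK Bd y W (algebraMap ℂ K z * c) := by
  intro P hP D hD
  have h1 := (Ge.const (P := P) z).mul (h P hP D hD)
  rw [add_zero] at h1
  have e : dt y D ^ W * (algebraMap ℂ K z * c) = algebraMap ℂ K z * (dt y D ^ W * c) := by ring
  rwa [e]

theorem pow (h : OK Bd y W c) (n : ℕ) : OK Bd y (n * W) (c ^ n) := by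
  induction n with
  | zero => rw [zero_mul, pow_zero]; exact one
  | succ n ih =>
    rw [pow_succ, Nat.succ_mul]
    exact ih.mul h

theorem sum {ι : Type} (s : Finset ι) (f : ι → K) (h : ∀ i ∈ s, OK Bd y W (f i)) :
    OK Bd y W (∑ i ∈ s, f i) := by
  classical
  induction s using Finset.induction_on with
  | empty => rw [Finset.sum_empty]; exact zero
  | insert a s ha ih =>
    rw [Finset.sum_insert ha]
    exact (h a (Finset.mem_insert_self _ _)).add
      (ih fun i hi => h i (Finset.mem_insert_of_mem hi))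

theorem prod {ι : Type} (s : Finset ι) (f : ι → K) (w : ι → ℕ)
    (h : ∀ i ∈ s, OK Bd y (w i) (f i)) : OK Bd y (∑ i ∈ s, w i) (∏ i ∈ s, f i) := by
  classical
  induction s using Finset.induction_on with
  | empty => rw [Finset.sum_empty, Finset.prod_empty]; exact one
  | insert a s ha ih =>
    rw [Finset.sum_insert ha, Finset.prod_insert ha]
    exact (h a (Finset.mem_insert_self _ _)).mul
      (ih fun i hi => h i (Finset.mem_insert_of_mem hi))

/-- values of polynomials -/
theorem poly {N : ℕ} {c : Fin (d + 1) → K} (hc0 : c 0 ≠ 0) (h : ∀ j, OK Bd y N (c j))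
    (p : MvPolynomial (Fin d) ℂ) (T : ℕ) (hT : p.totalDegree ≤ T) :
    OK Bd y (T * N) (c 0 ^ T * aeval (fun i : Fin d => c i.succ / c 0) p) := by
  rw [aeval_def, eval₂_eq', Finset.mul_sum]
  refine sum _ _ fun α hα => ?_
  have h1 : ∑ i, α i ≤ T := by
    have h2 := le_totalDegree hα
    rw [Finsupp.sum_fintype _ _ (fun _ => rfl)] at h2
    exact h2.trans hT
  have e : c 0 ^ T * ((algebraMap ℂ K) (p.coeff α) * ∏ i, (c i.succ / c 0) ^ α i) =
      algebraMap ℂ K (p.coeff α) * (c 0 ^ (T - ∑ i, α i) * ∏ i, c i.succ ^ α i) := by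
    have h2 : c 0 ^ T = c 0 ^ (T - ∑ i, α i) * c 0 ^ (∑ i, α i) := by
      rw [← pow_add, Nat.sub_add_cancel h1]
    have h3 : ∏ i : Fin d, (c i.succ / c 0) ^ α i = (∏ i : Fin d, c i.succ ^ α i) / c 0 ^ ∑ i, α i := by
      simp_rw [div_pow]
      rw [Finset.prod_div_distrib, Finset.prod_pow_eq_pow_sum]
    rw [h2, h3]
    have h4 : c 0 ^ ∑ i, α i ≠ 0 := pow_ne_zero _ hc0
    field_simp
  rw [e]
  apply smul
  have h5 : OK Bd y (∑ i, α i * N) (∏ i : Fin d, c i.succ ^ α i) :=
    prod _ _ _ fun i _ => (h i.succ).pow (α i)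
  have h6 := ((h 0).pow (T - ∑ i, α i)).mul h5
  have e2 : (T - ∑ i, α i) * N + ∑ i, α i * N = T * N := by
    rw [← Finset.sum_mul, ← add_mul, Nat.sub_add_cancel h1]
  rwa [e2] at h6

/-- integrality -/
theorem integral {W : ℕ} {x : K} (D : ℕ) (p : ℕ → K) (hp : ∀ i, i ≤ D → OK Bd y W (p i))
    (h : ∑ i ∈ Finset.range (D + 1), p i * x ^ i = 0) : OK Bd y W (p D * x) := by
  rcases Nat.eq_zero_or_pos D with hD | hD
  · subst hD
    simp only [zero_add, Finset.range_one, Finset.sum_singleton, pow_zero, mul_one] at h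
    rw [h, zero_mul]
    exact zero
  intro P hP Dv hDv
  set δ := dt y Dv ^ W with hδ
  have hge : ∀ i, i ≤ D → Ge P 0 (δ * p i) := fun i hi => hp i hi P hP Dv hDv
  refine Pool.Agent.Q72.NA.ge_integral P _ D
    (fun i => if i < D then δ * p i * (δ * p D) ^ (D - 1 - i) else 1) (fun i => ?_) ?_ ?_
  · split_ifs with hi
    · have h1 := (hge i hi.le).mul ((hge D le_rfl).pow (D - 1 - i))
      simpa using h1
    · exact Ge.one
  · simp
  · rw [Finset.sum_range_succ]
    simp only [lt_irrefl, if_false, one_mul]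
    have h2 : ∑ i ∈ Finset.range D, (if i < D then δ * p i * (δ * p D) ^ (D - 1 - i) else 1) *
        (δ * (p D * x)) ^ i = δ ^ D * p D ^ (D - 1) * ∑ i ∈ Finset.range D, p i * x ^ i := by
      rw [Finset.mul_sum]
      refine Finset.sum_congr rfl fun i hi => ?_
      have hi' := Finset.mem_range.1 hi
      rw [if_pos hi']
      have e1 : δ ^ D = δ * δ ^ (D - 1 - i) * δ ^ i := by
        rw [← pow_succ', ← pow_add]
        congr 1
        omega
      have e2 : p D ^ (D - 1) = p D ^ (D - 1 - i) * p D ^ i := by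
        rw [← pow_add]
        congr 1
        omega
      rw [e1, e2]
      ring
    rw [Finset.sum_range_succ] at h
    have h3 : ∑ i ∈ Finset.range D, p i * x ^ i = -(p D * x ^ D) := eq_neg_of_add_eq_zero_left h
    rw [h2, h3]
    have e3 : p D ^ D = p D ^ (D - 1) * p D := by
      rw [← pow_succ]
      congr 1
      omega
    rw [mul_pow, mul_pow, e3]
    ring

/-- **Forms divisible by a given function.** -/
theorem exists_mul {N : ℕ} {c : Fin (d + 1) → K} (hc0 : c 0 ≠ 0) (h : ∀ j, OK Bd y N (c j))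
    (halg : ∀ z : K, IsAlgebraic (IntermediateField.adjoin ℂ
      (Set.range fun i : Fin d => c i.succ / c 0)) z) (x : K) :
    ∃ (W : ℕ) (s : K), s ≠ 0 ∧ OK Bd y W s ∧ OK Bd y W (s * x) := by
  obtain ⟨D, p, hp0, hp⟩ := Pool.Agent.W603.PV.exists_rel' _ x (halg x)
  let T : ℕ := ∑ i ∈ Finset.range (D + 1), (p i).totalDegree
  have hT : ∀ i, i ≤ D → (p i).totalDegree ≤ T := fun i hi =>
    Finset.single_le_sum (f := fun i => (p i).totalDegree) (fun _ _ => Nat.zero_le _)
      (Finset.mem_range.2 (by omega))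
  have h1 : ∀ i, i ≤ D → OK Bd y (T * N)
      (c 0 ^ T * aeval (fun i : Fin d => c i.succ / c 0) (p i)) := fun i hi =>
    poly hc0 h (p i) T (hT i hi)
  refine ⟨T * N, c 0 ^ T * aeval (fun i : Fin d => c i.succ / c 0) (p D),
    mul_ne_zero (pow_ne_zero _ hc0) hp0, h1 D le_rfl, ?_⟩
  refine integral (x := x) D (fun i => c 0 ^ T * aeval (fun i : Fin d => c i.succ / c 0) (p i))
    h1 ?_
  have h2 : ∑ i ∈ Finset.range (D + 1), c 0 ^ T * aeval (fun i : Fin d => c i.succ / c 0) (p i) *
      x ^ i = c 0 ^ T * ∑ i ∈ Finset.range (D + 1),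
        aeval (fun i : Fin d => c i.succ / c 0) (p i) * x ^ i := by
    rw [Finset.mul_sum]
    exact Finset.sum_congr rfl fun i _ => by ring
  rw [h2, hp, mul_zero]

/-- **Forms divisible by a given function and by its inverse.** -/
theorem exists_mul_inv {N : ℕ} {c : Fin (d + 1) → K} (hc0 : c 0 ≠ 0) (h : ∀ j, OK Bd y N (c j))
    (halg : ∀ z : K, IsAlgebraic (IntermediateField.adjoin ℂ
      (Set.range fun i : Fin d => c i.succ / c 0)) z) (x : K) :
    ∃ (W : ℕ) (s : K), s ≠ 0 ∧ OK Bd y W s ∧ OK Bd y W (s * x) ∧ OK Bd y W (s * x⁻¹) := by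
  obtain ⟨W1, s1, h1, h2, h3⟩ := exists_mul hc0 h halg x
  obtain ⟨W2, s2, h4, h5, h6⟩ := exists_mul hc0 h halg x⁻¹
  refine ⟨W1 + W2, s1 * s2, mul_ne_zero h1 h4, h2.mul h5, ?_, ?_⟩
  · have := h3.mul h5
    rwa [show s1 * x * s2 = s1 * s2 * x by ring] at this
  · have := h2.mul h6
    rwa [show s1 * (s2 * x⁻¹) = s1 * s2 * x⁻¹ by ring] at this

end OK

end Pool.Agent.Q271.RC
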